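import Mathlib

open Nat.Partrec (Code)
open Encodable Denumerable

namespace Pool.Agent.Helper84.F36693

/-! ### Definitions used in the statement -/

/-- The characteristic function of a set of natural numbers. -/
noncomputable def chi (A : Set ℕ) (n : ℕ) : ℕ := open Classical in if n ∈ A then 1 else 0

/-- The Turing degree (in the sense of Mathlib) of a set of natural numbers, i.e. the degree of
its characteristic function. -/
noncomputable def degOf (A : Set ℕ) : TuringDegree :=
  toAntisymmetrization _ (chi A : ℕ →. ℕ)

/-- The finite initial segment `A ↾ k` of the characteristic function of `A`, as a list of bits. -/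
noncomputable def seg (A : Set ℕ) (k : ℕ) : List Bool :=
  open Classical in (List.range k).map (fun i => decide (i ∈ A))

/-- The `e`-th set `W_e^A` computably enumerable in `A`: `x ∈ W_e^A` iff for some finite initial
segment `σ` of the characteristic function of `A` the `e`-th partial computable function
converges on the pair `⟨σ, x⟩`. (`re_in_iff` in the file `Proof`: these are exactly the domains of the
partial functions which are recursive in `A` in Mathlib's sense.) -/
def W (e : ℕ) (A : Set ℕ) : Set ℕ :=
  {x | ∃ k, ((ofNat Code e).eval (Nat.pair (encode (seg A k)) x)).Dom}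

/-- The Turing jump `A' = {e : e ∈ W_e^A}`. -/
def jump (A : Set ℕ) : Set ℕ := {e | e ∈ W e A}

/-- The iterated jumps `∅^(n)` of the empty set. -/
def iterJump : ℕ → Set ℕ
  | 0 => ∅
  | n + 1 => jump (iterJump n)

/-- `∅^(ω) = {⟨n, x⟩ : x ∈ ∅^(n)}`. -/
def zeroOmega : Set ℕ := {m | m.unpair.2 ∈ iterJump m.unpair.1}

/-- A computable signature: computable sets `F`, `R` of (codes of) function symbols (constants
are function symbols of arity 0) and relation symbols, with computable arity functions. -/
structure Sig where
  F : Set ℕ
  R : Set ℕ
  farity : ℕ → ℕ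
  rarity : ℕ → ℕ
  F_comp : ComputablePred fun i => i ∈ F
  R_comp : ComputablePred fun i => i ∈ R
  farity_comp : Computable farity
  rarity_comp : Computable rarity

/-- The first-order language (in the sense of Mathlib) of a computable signature. -/
def Sig.lang (S : Sig) : FirstOrder.Language.{0, 0} where
  Functions n := {i : ℕ // i ∈ S.F ∧ S.farity i = n}
  Relations n := {i : ℕ // i ∈ S.R ∧ S.rarity i = n}

/-- Goedel numbers of terms (the variables are numbered `0, …, n-1`). -/
def gnTerm (S : Sig) {n : ℕ} : S.lang.Term (Empty ⊕ Fin n) → ℕ
  | .var (Sum.inl e) => e.elim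
  | .var (Sum.inr i) => Nat.pair 0 i
  | .func f ts => Nat.pair 1 (Nat.pair f.1 (encode (List.ofFn fun i => gnTerm S (ts i))))

/-- Goedel numbers of formulas. -/
def gnFormula (S : Sig) : {n : ℕ} → S.lang.BoundedFormula Empty n → ℕ
  | _, .falsum => Nat.pair 0 0
  | _, .equal t₁ t₂ => Nat.pair 1 (Nat.pair (gnTerm S t₁) (gnTerm S t₂))
  | _, .rel R ts => Nat.pair 2 (Nat.pair R.1 (encode (List.ofFn fun i => gnTerm S (ts i))))
  | _, .imp φ ψ => Nat.pair 3 (Nat.pair (gnFormula S φ) (gnFormula S ψ))
  | _, .all φ => Nat.pair 4 (gnFormula S φ)

/-- The atomic diagram of a structure with universe `U ⊆ ℕ`: all pairs of the Goedel number of an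
atomic formula `φ` with `n` free variables and an `n`-tuple of elements of the universe at which
`φ` is true. -/
def atomicDiagram (S : Sig) (U : Set ℕ) (str : S.lang.Structure U) : Set (ℕ × List ℕ) :=
  {p | ∃ (n : ℕ) (φ : S.lang.BoundedFormula Empty n) (a : Fin n → U), φ.IsAtomic ∧
    φ.Realize default a ∧ p = (gnFormula S φ, List.ofFn fun i => (a i : ℕ))}

/-- A computable structure: its universe is a nonempty computable set of natural numbers and its
atomic diagram is computable. -/
structure CompStr (S : Sig) where
  U : Set ℕ
  nonempty : U.Nonempty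
  U_comp : ComputablePred fun i => i ∈ U
  str : S.lang.Structure U
  diag_comp : ComputablePred fun p => p ∈ atomicDiagram S U str

/-- The set of Goedel numbers of the sentences in a theory. -/
def theoryCodes (S : Sig) (T : S.lang.Theory) : Set ℕ := {x | ∃ φ ∈ T, gnFormula S φ = x}

/-- The theory `T` possesses a computable model. -/
def HasComputableModel (S : Sig) (T : S.lang.Theory) : Prop :=
  ∃ M : CompStr S, @FirstOrder.Language.Theory.Model S.lang M.U M.str T

end Pool.Agent.Helper84.F36693
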