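import Pool.Agent.Helper84.F36693.Defs

/-!
Every theory of a computable structure is many-one reducible to `zeroOmega` (`theory_mred`); a
finite-extension construction recursive in `zeroOmega` gives a set `DD` such that every set Turing
below `DD` and many-one below `zeroOmega` is computable, while `DD` is not computable
(`main_abstract`).
-/

open Nat.Partrec (Code)
open Encodable Denumerable

namespace Pool.Agent.Helper84.F36693

/-! ### Basic facts -/

theorem jump_def (A : Set ℕ) :
    jump A = {e | ∃ k, ((ofNat Code e).eval (Nat.pair (encode (seg A k)) e)).Dom} := rfl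

theorem degOf_le {A B : Set ℕ} : degOf A ≤ degOf B ↔ TuringReducible (chi A : ℕ →. ℕ) (chi B : ℕ →. ℕ) := by
  exact Iff.rfl

theorem degOf_eq {A B : Set ℕ} : degOf A = degOf B ↔ TuringEquivalent (chi A : ℕ →. ℕ) (chi B : ℕ →. ℕ) := by
  unfold degOf
  exact Quotient.eq

section seg
variable (A : Set ℕ)

theorem seg_length (k : ℕ) : (seg A k).length = k := by simp [seg]

theorem seg_getElem? (k n : ℕ) : (seg A k)[n]? = open Classical in if n < k then some (decide (n ∈ A)) else none := by
  classical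
  unfold seg
  by_cases h : n < k
  · simp [h]
  · simp [h]

theorem seg_take {k l : ℕ} (h : k ≤ l) : (seg A l).take k = seg A k := by
  unfold seg
  rw [← List.map_take, List.take_range, min_eq_left h]

theorem seg_mono {k l : ℕ} (h : k ≤ l) : seg A k <+: seg A l := by
  rw [← seg_take A h]; exact List.take_prefix _ _

end seg

/-- A string functional: a (plain) partial recursive function of a finite oracle string and an
input which is monotone in the string. -/
structure IsFun (g : List Bool → ℕ → Part ℕ) : Prop where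
  part : Partrec₂ (g : List Bool → ℕ →. ℕ)
  mono : ∀ {σ τ : List Bool} {n y : ℕ}, σ <+: τ → y ∈ g σ n → y ∈ g τ n

open scoped Classical in
theorem exists_functional (A : Set ℕ) {f : ℕ →. ℕ} (hf : Nat.RecursiveIn {(chi A : ℕ →. ℕ)} f) :
    ∃ g : List Bool → ℕ → Part ℕ, IsFun g ∧ ∀ n y, y ∈ f n ↔ ∃ k, y ∈ g (seg A k) n := by
  induction hf with
  | zero => exact ⟨fun _ _ => Part.some 0, ⟨(Computable.const 0).partrec.to₂, fun _ h => h⟩, fun n y => by
      constructor
      · intro h; exact ⟨0, h⟩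
      · rintro ⟨_, h⟩; exact h⟩
  | succ => exact ⟨fun _ n => Part.some (n+1), ⟨(Computable.succ.comp Computable.snd).partrec.to₂, fun _ h => h⟩, fun n y => by
      constructor
      · intro h; exact ⟨0, h⟩
      · rintro ⟨_, h⟩; exact h⟩
  | left => exact ⟨fun _ n => Part.some n.unpair.1, ⟨(Computable.fst.comp (Computable.unpair.comp Computable.snd)).partrec.to₂, fun _ h => h⟩, fun n y => by
      constructor
      · intro h; exact ⟨0, h⟩
      · rintro ⟨_, h⟩; exact h⟩
  | right => exact ⟨fun _ n => Part.some n.unpair.2, ⟨(Computable.snd.comp (Computable.unpair.comp Computable.snd)).partrec.to₂, fun _ h => h⟩, fun n y => by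
      constructor
      · intro h; exact ⟨0, h⟩
      · rintro ⟨_, h⟩; exact h⟩
  | oracle g hg =>
    rw [Set.mem_singleton_iff] at hg
    subst hg
    refine ⟨fun σ n => ((σ[n]?).map (fun b => cond b 1 0) : Option ℕ), ⟨?_, ?_⟩, ?_⟩
    · exact Computable.ofOption (Computable.option_map (Computable.list_getElem?)
        ((Computable.cond Computable.id (Computable.const 1) (Computable.const 0)).comp Computable.snd).to₂)
    · intro σ τ n y h hy
      simp only [Part.mem_ofOption, Option.mem_def, Option.map_eq_some_iff] at hy ⊢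
      obtain ⟨b, hb, rfl⟩ := hy
      refine ⟨b, ?_, rfl⟩
      obtain ⟨t, rfl⟩ := h
      exact (List.getElem?_append_left (List.getElem?_eq_some_iff.1 hb).1).trans hb
    · intro n y
      simp only [Part.mem_ofOption, Option.mem_def, Option.map_eq_some_iff, seg_getElem?]
      constructor
      · intro h
        refine ⟨n+1, decide (n ∈ A), by simp, ?_⟩
        simp only [PFun.coe_val, Part.mem_some_iff] at h
        subst h
        by_cases h : n ∈ A <;> simp [chi, h]
      · rintro ⟨k, b, h1, h2⟩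
        by_cases hk : n < k
        · rw [if_pos hk] at h1
          simp only [Option.some.injEq] at h1
          subst h1 h2
          by_cases h : n ∈ A <;> simp [chi, h]
        · rw [if_neg hk] at h1
          exact absurd h1 (by simp)
  | @pair f1 f2 _ _ ih1 ih2 =>
    obtain ⟨g1, ⟨p1, m1⟩, h1⟩ := ih1
    obtain ⟨g2, ⟨p2, m2⟩, h2⟩ := ih2
    have key : ∀ σ n y, y ∈ ((g1 σ n).bind fun a => (g2 σ n).map fun b => Nat.pair a b) ↔
        ∃ a ∈ g1 σ n, ∃ b ∈ g2 σ n, Nat.pair a b = y := by
      intro σ n y; simp only [Part.mem_bind_iff, Part.mem_map_iff]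
    refine ⟨fun σ n => (g1 σ n).bind fun a => (g2 σ n).map fun b => Nat.pair a b, ⟨?_, ?_⟩, ?_⟩
    · refine Partrec.bind (f := fun p : List Bool × ℕ => g1 p.1 p.2) p1 ?_
      refine Partrec.map (f := fun p : (List Bool × ℕ) × ℕ => g2 p.1.1 p.1.2)
        (p2.comp (Computable.fst.comp Computable.fst) (Computable.snd.comp Computable.fst)) ?_
      exact (Primrec₂.natPair.to_comp.comp (Computable.snd.comp Computable.fst) Computable.snd).to₂
    · intro σ τ n y h hy
      obtain ⟨a, ha, b, hb, rfl⟩ := (key _ _ _).1 hy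
      exact (key _ _ _).2 ⟨a, m1 h ha, b, m2 h hb, rfl⟩
    · intro n y
      have : (Nat.pair <$> f1 n <*> f2 n) = (f1 n).bind fun a => (f2 n).map fun b => Nat.pair a b := by
        simp [Seq.seq, Part.bind_map]
      show y ∈ (Nat.pair <$> f1 n <*> f2 n) ↔ ∃ k, y ∈ ((g1 (seg A k) n).bind fun a => (g2 (seg A k) n).map fun b => Nat.pair a b)
      rw [this]
      simp only [key, Part.mem_bind_iff, Part.mem_map_iff, h1, h2]
      constructor
      · rintro ⟨a, ⟨k1, ha⟩, b, ⟨k2, hb⟩, rfl⟩
        exact ⟨max k1 k2, a, m1 (seg_mono A (le_max_left _ _)) ha, b, m2 (seg_mono A (le_max_right _ _)) hb, rfl⟩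
      · rintro ⟨k, a, ha, b, hb, rfl⟩
        exact ⟨a, ⟨k, ha⟩, b, ⟨k, hb⟩, rfl⟩
  | @comp f1 f2 _ _ ih1 ih2 =>
    obtain ⟨g1, ⟨p1, m1⟩, h1⟩ := ih1
    obtain ⟨g2, ⟨p2, m2⟩, h2⟩ := ih2
    have key : ∀ σ n y, y ∈ ((g2 σ n).bind fun a => g1 σ a) ↔ ∃ a ∈ g2 σ n, y ∈ g1 σ a := by
      intro σ n y; simp only [Part.mem_bind_iff]
    refine ⟨fun σ n => (g2 σ n).bind fun a => g1 σ a, ⟨?_, ?_⟩, ?_⟩
    · refine Partrec.bind (f := fun p : List Bool × ℕ => g2 p.1 p.2) p2 ?_
      exact (p1.comp (Computable.fst.comp Computable.fst) Computable.snd).to₂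
    · intro σ τ n y h hy
      obtain ⟨a, ha, hb⟩ := (key _ _ _).1 hy
      exact (key _ _ _).2 ⟨a, m2 h ha, m1 h hb⟩
    · intro n y
      have e : y ∈ ((f2 n).bind f1) ↔ ∃ a ∈ f2 n, y ∈ f1 a := Part.mem_bind_iff
      refine e.trans ?_
      simp only [key]
      constructor
      · rintro ⟨a, ha, hb⟩
        obtain ⟨k1, hk1⟩ := (h2 _ _).1 ha
        obtain ⟨k2, hk2⟩ := (h1 _ _).1 hb
        exact ⟨max k1 k2, a, m2 (seg_mono A (le_max_left _ _)) hk1, m1 (seg_mono A (le_max_right _ _)) hk2⟩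
      · rintro ⟨k, a, ha, hb⟩
        exact ⟨a, (h2 _ _).2 ⟨k, ha⟩, (h1 _ _).2 ⟨k, hb⟩⟩
  | @prec f1 f2 _ _ ih1 ih2 =>
    obtain ⟨g1, ⟨p1, m1⟩, h1⟩ := ih1
    obtain ⟨g2, ⟨p2, m2⟩, h2⟩ := ih2
    let G : List Bool → ℕ → ℕ → Part ℕ := fun σ a n =>
      n.rec (g1 σ a) fun y IH => IH.bind fun i => g2 σ (Nat.pair a (Nat.pair y i))
    have G0 : ∀ σ a, G σ a 0 = g1 σ a := fun _ _ => rfl
    have GS : ∀ σ a n, G σ a (n+1) = (G σ a n).bind fun i => g2 σ (Nat.pair a (Nat.pair n i)) :=
      fun _ _ _ => rfl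
    have hGmono : ∀ {σ τ : List Bool} {a n y : ℕ}, σ <+: τ → y ∈ G σ a n → y ∈ G τ a n := by
      intro σ τ a n y h hy
      induction n generalizing y with
      | zero => exact m1 h hy
      | succ n ih =>
        rw [GS] at hy ⊢
        simp only [Part.mem_bind_iff] at hy ⊢
        obtain ⟨i, hi, hy⟩ := hy
        exact ⟨i, ih hi, m2 h hy⟩
    refine ⟨fun σ p => G σ p.unpair.1 p.unpair.2, ⟨?_, ?_⟩, ?_⟩
    · have e1 : Computable fun q : List Bool × ℕ => q.2.unpair.2 :=
        Computable.snd.comp (Computable.unpair.comp Computable.snd)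
      have e2 : Partrec fun q : List Bool × ℕ => g1 q.1 q.2.unpair.1 :=
        p1.comp Computable.fst (Computable.fst.comp (Computable.unpair.comp Computable.snd))
      have e3 : Partrec₂ fun (q : List Bool × ℕ) (r : ℕ × ℕ) =>
          g2 q.1 (Nat.pair q.2.unpair.1 (Nat.pair r.1 r.2)) := by
        refine p2.comp (Computable.fst.comp Computable.fst) ?_
        refine Primrec₂.natPair.to_comp.comp
          (Computable.fst.comp (Computable.unpair.comp (Computable.snd.comp Computable.fst))) ?_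
        exact Primrec₂.natPair.to_comp.comp (Computable.fst.comp Computable.snd) (Computable.snd.comp Computable.snd)
      exact Partrec.nat_rec e1 e2 e3
    · intro σ τ n y h hy
      exact hGmono h hy
    · intro p y
      show y ∈ (Nat.rec (f1 p.unpair.1) (fun y IH => IH.bind fun i => f2 (Nat.pair p.unpair.1 (Nat.pair y i))) p.unpair.2 : Part ℕ) ↔ ∃ k, y ∈ G (seg A k) p.unpair.1 p.unpair.2
      generalize p.unpair.1 = a
      generalize p.unpair.2 = n
      induction n generalizing y with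
      | zero => exact h1 a y
      | succ n ih =>
        simp only [GS, Part.mem_bind_iff]
        constructor
        · rintro ⟨i, hi, hy⟩
          obtain ⟨k1, hk1⟩ := (ih i).1 hi
          obtain ⟨k2, hk2⟩ := (h2 _ _).1 hy
          exact ⟨max k1 k2, i, hGmono (seg_mono A (le_max_left _ _)) hk1, m2 (seg_mono A (le_max_right _ _)) hk2⟩
        · rintro ⟨k, i, hi, hy⟩
          exact ⟨i, (ih i).2 ⟨k, hi⟩, (h2 _ _).2 ⟨k, hy⟩⟩
  | @rfind f _ ih =>
    obtain ⟨g, ⟨p, m⟩, h⟩ := ih
    have key : ∀ (F : ℕ → Part ℕ) y, y ∈ (Nat.rfind fun n => (F n).map fun m => decide (m = 0)) ↔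
        0 ∈ F y ∧ ∀ l, l < y → ∃ b ∈ F l, b ≠ 0 := by
      intro F y
      refine Nat.mem_rfind.trans ?_
      constructor
      · rintro ⟨h1, h2⟩
        refine ⟨?_, fun l hl => ?_⟩
        · obtain ⟨a, ha, ha'⟩ := (Part.mem_map_iff _).1 h1
          simp only [decide_eq_true_eq] at ha'
          subst ha'; exact ha
        · obtain ⟨a, ha, ha'⟩ := (Part.mem_map_iff _).1 (h2 hl)
          simp only [decide_eq_false_iff_not] at ha'
          exact ⟨a, ha, ha'⟩
      · rintro ⟨h1, h2⟩
        refine ⟨(Part.mem_map_iff _).2 ⟨0, h1, rfl⟩, fun {l} hl => ?_⟩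
        obtain ⟨b, hb, hb0⟩ := h2 l hl
        exact (Part.mem_map_iff _).2 ⟨b, hb, by simpa using hb0⟩
    refine ⟨fun σ a => Nat.rfind fun n => (g σ (Nat.pair a n)).map fun m => decide (m = 0), ⟨?_, ?_⟩, ?_⟩
    · refine Partrec.rfind (p := fun (q : List Bool × ℕ) n => (g q.1 (Nat.pair q.2 n)).map fun m => decide (m = 0)) ?_
      refine Partrec.map (f := fun (q : (List Bool × ℕ) × ℕ) => g q.1.1 (Nat.pair q.1.2 q.2))
        (p.comp (Computable.fst.comp Computable.fst) (Primrec₂.natPair.to_comp.comp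
          (Computable.snd.comp Computable.fst) Computable.snd)) ?_
      exact ((Primrec.eq (α := ℕ)).decide.comp Primrec.snd (Primrec.const 0)).to_comp.to₂
    · intro σ τ n y hh hy
      obtain ⟨hy1, hy2⟩ := (key _ _).1 hy
      refine (key _ _).2 ⟨m hh hy1, ?_⟩
      intro l hl
      obtain ⟨a, ha, ha'⟩ := hy2 l hl
      exact ⟨a, m hh ha, ha'⟩
    · intro a y
      refine (key (fun n => f (Nat.pair a n)) y).trans ?_
      simp only [h]
      constructor
      · rintro ⟨⟨k0, hk0⟩, hlt⟩
        have : ∃ K, ∀ l, l < y → ∃ b, b ∈ g (seg A K) (Nat.pair a l) ∧ b ≠ 0 := by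
          have hlt' : ∀ l, l < y → ∃ k b, b ∈ g (seg A k) (Nat.pair a l) ∧ b ≠ 0 := by
            intro l hl
            obtain ⟨b, ⟨k, hk⟩, hb⟩ := hlt l hl
            exact ⟨k, b, hk, hb⟩
          clear hlt hk0
          induction y with
          | zero => exact ⟨0, fun l hl => absurd hl (by omega)⟩
          | succ y ih =>
            obtain ⟨K, hK⟩ := ih (fun l hl => hlt' l (by omega))
            obtain ⟨k, b, hb, hb0⟩ := hlt' y (by omega)
            refine ⟨max K k, fun l hl => ?_⟩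
            rcases Nat.lt_succ_iff_lt_or_eq.1 hl with hl | rfl
            · obtain ⟨b, hb, hb0⟩ := hK l hl
              exact ⟨b, m (seg_mono A (le_max_left _ _)) hb, hb0⟩
            · exact ⟨b, m (seg_mono A (le_max_right _ _)) hb, hb0⟩
        obtain ⟨K, hK⟩ := this
        refine ⟨max K k0, (key _ _).2 ⟨m (seg_mono A (le_max_right _ _)) hk0, ?_⟩⟩
        intro l hl
        obtain ⟨b, hb, hb0⟩ := hK l hl
        exact ⟨b, m (seg_mono A (le_max_left _ _)) hb, hb0⟩
      · rintro ⟨k, hk⟩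
        obtain ⟨hb, hlt⟩ := (key _ _).1 hk
        refine ⟨⟨k, hb⟩, fun l hl => ?_⟩
        obtain ⟨b, hb, hb0⟩ := hlt l hl
        exact ⟨b, ⟨k, hb⟩, hb0⟩

theorem rin_comp {O : Set (ℕ →. ℕ)} {u v : ℕ → ℕ} (hu : Nat.RecursiveIn O (u : ℕ →. ℕ))
    (hv : Nat.RecursiveIn O (v : ℕ →. ℕ)) : Nat.RecursiveIn O ((fun n => u (v n) : ℕ → ℕ) : ℕ →. ℕ) := by
  refine (Nat.RecursiveIn.comp hu hv).of_eq fun n => ?_
  exact Part.bind_some _ _

theorem rin_pair {O : Set (ℕ →. ℕ)} {u v : ℕ → ℕ} (hu : Nat.RecursiveIn O (u : ℕ →. ℕ))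
    (hv : Nat.RecursiveIn O (v : ℕ →. ℕ)) : Nat.RecursiveIn O ((fun n => Nat.pair (u n) (v n) : ℕ → ℕ) : ℕ →. ℕ) := by
  refine (Nat.RecursiveIn.pair hu hv).of_eq fun n => ?_
  simp [Seq.seq]

theorem rin_prim {O : Set (ℕ →. ℕ)} {u : ℕ → ℕ} (hu : Primrec u) : Nat.RecursiveIn O (u : ℕ →. ℕ) :=
  Nat.Primrec.recursiveIn (Primrec.nat_iff.1 hu)

theorem rin_seg (A : Set ℕ) : Nat.RecursiveIn {(chi A : ℕ →. ℕ)} ((fun k => encode (seg A k) : ℕ → ℕ) : ℕ →. ℕ) := by
  classical
  let P : ℕ → ℕ := fun z => encode (((decode z.unpair.1 : Option (List Bool)).getD []) ++ [decide (z.unpair.2 = 1)])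
  have hP : Primrec P := by
    refine Primrec.encode.comp (Primrec.list_concat.comp ?_ ?_)
    · exact Primrec.option_getD.comp (Primrec.decode.comp (Primrec.fst.comp Primrec.unpair)) (Primrec.const [])
    · exact (Primrec.eq (α := ℕ)).decide.comp (Primrec.snd.comp Primrec.unpair) (Primrec.const 1)
  let h : ℕ → ℕ := fun z => P (Nat.pair z.unpair.2.unpair.2 (chi A z.unpair.2.unpair.1))
  have hh : Nat.RecursiveIn {(chi A : ℕ →. ℕ)} (h : ℕ →. ℕ) := by
    refine rin_comp (rin_prim hP) (rin_pair (rin_prim ?_) (rin_comp (Nat.RecursiveIn.oracle _ rfl) (rin_prim ?_)))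
    · exact Primrec.snd.comp (Primrec.unpair.comp (Primrec.snd.comp Primrec.unpair))
    · exact Primrec.fst.comp (Primrec.unpair.comp (Primrec.snd.comp Primrec.unpair))
  have h0 : Nat.RecursiveIn {(chi A : ℕ →. ℕ)} ((fun _ => 0 : ℕ → ℕ) : ℕ →. ℕ) := rin_prim (Primrec.const 0)
  have h1 := Nat.RecursiveIn.comp (Nat.RecursiveIn.prec h0 hh) (rin_pair h0 (rin_prim Primrec.id))
  refine h1.of_eq fun k => ?_
  simp only [id, PFun.coe_val, Part.bind_eq_bind, Part.bind_some, Nat.unpair_pair]
  induction k with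
  | zero => simp [seg]
  | succ k ih =>
    simp only [ih, Part.bind_some]
    congr 1
    simp only [h, P, Nat.unpair_pair, encodek, Option.getD_some]
    congr 1
    unfold seg
    rw [List.range_succ, List.map_append]
    simp [chi]

/-- Search relative to an oracle. -/
theorem rin_search (O : Set ℕ) (c : Code) : ∃ F : ℕ → Part ℕ, Nat.RecursiveIn {(chi O : ℕ →. ℕ)} (F : ℕ →. ℕ) ∧
    (∀ n, (F n).Dom ↔ ∃ k, (c.eval (Nat.pair (encode (seg O k)) n)).Dom) ∧
    (∀ n y, y ∈ F n → ∃ k, y ∈ c.eval (Nat.pair (encode (seg O k)) n)) := by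
  -- test function, arguments coded as pair (pair n m) s
  let T : ℕ → ℕ := fun z =>
    bif (Code.evaln z.unpair.1.unpair.2.unpair.2 c (Nat.pair z.unpair.2 z.unpair.1.unpair.1)).isSome then 0 else 1
  let R : ℕ → ℕ := fun z =>
    (Code.evaln z.unpair.1.unpair.2.unpair.2 c (Nat.pair z.unpair.2 z.unpair.1.unpair.1)).getD 0
  have hE : Primrec fun z : ℕ => Code.evaln z.unpair.1.unpair.2.unpair.2 c (Nat.pair z.unpair.2 z.unpair.1.unpair.1) := by
    have u1 : Primrec fun z : ℕ => z.unpair.1 := Primrec.fst.comp Primrec.unpair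
    have u2 : Primrec fun z : ℕ => z.unpair.2 := Primrec.snd.comp Primrec.unpair
    exact Code.primrec_evaln.comp (((u2.comp (u2.comp u1)).pair (Primrec.const c)).pair
      (Primrec₂.natPair.comp u2 (u1.comp u1)))
  have hT : Primrec T := Primrec.cond (Primrec.option_isSome.comp hE) (Primrec.const 0) (Primrec.const 1)
  have hR : Primrec R := Primrec.option_getD.comp hE (Primrec.const 0)
  let E : ℕ → ℕ := fun w => Nat.pair w (encode (seg O w.unpair.2.unpair.1))
  have hEE : Nat.RecursiveIn {(chi O : ℕ →. ℕ)} (E : ℕ →. ℕ) := by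
    refine rin_pair (rin_prim Primrec.id) (rin_comp (rin_seg O) (rin_prim ?_))
    exact Primrec.fst.comp (Primrec.unpair.comp (Primrec.snd.comp Primrec.unpair))
  have hTE := rin_comp (rin_prim hT) hEE
  have hRE := rin_comp (rin_prim hR) hEE
  have hF := Nat.RecursiveIn.rfind hTE
  have hG := Nat.RecursiveIn.comp hRE (Nat.RecursiveIn.pair (rin_prim Primrec.id) hF)
  let F : ℕ → Part ℕ := fun n => (Nat.rfind fun m => Part.some (decide (T (E (Nat.pair n m)) = 0))).map
    fun m => R (E (Nat.pair n m))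
  have hfind : ∀ n, (∃ m : ℕ, (Code.evaln m.unpair.2 c (Nat.pair (encode (seg O m.unpair.1)) n)).isSome) →
      (F n).Dom := by
    intro n key
    have : Nat.find key ∈ Nat.rfind fun m => Part.some (decide (T (E (Nat.pair n m)) = 0)) := by
      refine Nat.mem_rfind.2 ⟨?_, ?_⟩
      · have := Nat.find_spec key
        simp [T, E, this]
      · intro m hm
        have := Nat.find_min key hm
        simp only [Bool.not_eq_true, Option.isSome_eq_false_iff, Option.isNone_iff_eq_none] at this
        simp [T, E, this]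
    exact Part.dom_iff_mem.2 ⟨_, (Part.mem_map_iff _).2 ⟨_, this, rfl⟩⟩
  have hval : ∀ n y, y ∈ F n → ∃ k, y ∈ c.eval (Nat.pair (encode (seg O k)) n) := by
    intro n y hy
    obtain ⟨m, hm, rfl⟩ := (Part.mem_map_iff _).1 hy
    have h1 := Nat.rfind_spec hm
    have h2 : T (E (Nat.pair n m)) = 0 := by
      have := Part.mem_some_iff.1 h1
      simpa using this.symm
    have h3 : (Code.evaln m.unpair.2 c (Nat.pair (encode (seg O m.unpair.1)) n)).isSome := by
      simp only [T, E, Nat.unpair_pair] at h2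
      cases h : (Code.evaln m.unpair.2 c (Nat.pair (encode (seg O m.unpair.1)) n)).isSome with
      | true => rfl
      | false => rw [h] at h2; simp at h2
    obtain ⟨y, hy⟩ := Option.isSome_iff_exists.1 h3
    refine ⟨m.unpair.1, ?_⟩
    have : R (E (Nat.pair n m)) = y := by simp [R, E, hy]
    rw [this]
    exact Code.evaln_sound hy
  refine ⟨F, ?_, ?_, hval⟩
  · refine hG.of_eq fun n => ?_
    simp only [id, PFun.coe_val, Part.map_eq_map, Part.map_some, Seq.seq, Part.bind_some]
    exact (Part.bind_some_eq_map _ _).trans (Part.map_map _ _ _)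
  · intro n
    constructor
    · intro h
      obtain ⟨y, hy⟩ := Part.dom_iff_mem.1 h
      obtain ⟨k, hk⟩ := hval n y hy
      exact ⟨k, Part.dom_iff_mem.2 ⟨y, hk⟩⟩
    · rintro ⟨k, hk⟩
      obtain ⟨y, hy⟩ := Part.dom_iff_mem.1 hk
      obtain ⟨t, ht⟩ := Code.evaln_complete.1 hy
      refine hfind n ⟨Nat.pair k t, ?_⟩
      simp only [Nat.unpair_pair]
      rw [Option.isSome_iff_exists]
      exact ⟨y, ht⟩

theorem recIn_of_string (O : Set ℕ) (f : ℕ → ℕ) (g : List Bool → ℕ → Part ℕ)
    (hg : Partrec₂ (g : List Bool → ℕ →. ℕ))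
    (hs : ∀ k n y, y ∈ g (seg O k) n → y = f n) (hc : ∀ n, ∃ k, (g (seg O k) n).Dom) :
    RecursiveIn {(chi O : ℕ →. ℕ)} (f : ℕ →. ℕ) := by
  rw [RecursiveIn.iff_nat]
  obtain ⟨c, hc'⟩ := Code.exists_code.1 hg
  have hcv : ∀ σ n, c.eval (Nat.pair (encode σ) n) = g σ n := by
    intro σ n
    rw [hc']
    simp only [decode_prod_val, Nat.unpair_pair, encodek, decode_nat, Option.map_some,
      Option.bind_some, Part.coe_some, Part.bind_some]
    exact Part.map_id' (fun x => rfl) _
  obtain ⟨F, hF, hF1, hF2⟩ := rin_search O c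
  refine hF.of_eq_tot fun n => ?_
  have hdom : (F n).Dom := by
    rw [hF1]
    obtain ⟨k, hk⟩ := hc n
    exact ⟨k, by rw [hcv]; exact hk⟩
  obtain ⟨y, hy⟩ := Part.dom_iff_mem.1 hdom
  obtain ⟨k, hk⟩ := hF2 n y hy
  rw [hcv] at hk
  rw [← hs k n y hk]
  exact hy

/-- Sanity check (not used below): the sets `W e A` are exactly the domains of the
partial functions recursive in `A` in the sense of Mathlib. -/
theorem re_in_iff (A B : Set ℕ) :
    (∃ f : ℕ →. ℕ, RecursiveIn {(chi A : ℕ →. ℕ)} f ∧ ∀ n, n ∈ B ↔ (f n).Dom) ↔ ∃ e, B = W e A := by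
  constructor
  · rintro ⟨f, hf, hB⟩
    obtain ⟨g, ⟨hg, _⟩, hfg⟩ := exists_functional A (RecursiveIn.iff_nat.1 hf)
    obtain ⟨c, hc'⟩ := Code.exists_code.1 hg
    have hcv : ∀ σ n, c.eval (Nat.pair (encode σ) n) = g σ n := by
      intro σ n
      rw [hc']
      simp only [decode_prod_val, Nat.unpair_pair, encodek, decode_nat, Option.map_some,
        Option.bind_some, Part.coe_some, Part.bind_some]
      exact Part.map_id' (fun x => rfl) _
    refine ⟨encode c, ?_⟩
    ext n
    rw [hB]
    show _ ↔ ∃ k, ((ofNat Code (encode c)).eval (Nat.pair (encode (seg A k)) n)).Dom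
    simp only [ofNat_encode, hcv, Part.dom_iff_mem]
    constructor
    · rintro ⟨y, hy⟩
      obtain ⟨k, hk⟩ := (hfg n y).1 hy
      exact ⟨k, y, hk⟩
    · rintro ⟨k, y, hy⟩
      exact ⟨y, (hfg n y).2 ⟨k, hy⟩⟩
  · rintro ⟨e, rfl⟩
    obtain ⟨F, hF, hF1, _⟩ := rin_search A (ofNat Code e)
    exact ⟨F, RecursiveIn.iff_nat.2 hF, fun n => (hF1 n).symm⟩

/-- s-m-n for the jump: halting of a (plain) partial recursive function is uniformly decided by
the jump of any set. -/
theorem exists_query {α β : Type} [Primcodable α] [Primcodable β] (f : α → Part β) (hf : Partrec (f : α →. β)) :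
    ∃ q : α → ℕ, Computable q ∧ ∀ (a : α) (A : Set ℕ), q a ∈ jump A ↔ (f a).Dom := by
  obtain ⟨c, hc⟩ := Code.exists_code.1 hf
  refine ⟨fun a => encode (Code.comp c (Code.const (encode a))), ?_, ?_⟩
  · exact (Primrec.encode.comp (Code.primrec₂_comp.comp (Primrec.const c)
      (Code.primrec_const.comp Primrec.encode))).to_comp
  · intro a A
    have hev : ∀ x, (ofNat Code (encode (Code.comp c (Code.const (encode a))))).eval x = (f a).map encode := by
      intro x
      rw [ofNat_encode]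
      simp only [Code.eval, Code.eval_const, Part.bind_eq_bind, Part.bind_some, hc, encodek, Part.coe_some]
    constructor
    · rintro ⟨k, hk⟩
      rw [hev] at hk; exact hk
    · intro h
      exact ⟨0, by rw [hev]; exact h⟩

/-- The functional with index `e`. -/
def Psi (e : ℕ) (σ : List Bool) (n : ℕ) : Part ℕ := (ofNat Code e).eval (Nat.pair (encode σ) n)

/-- its approximations -/
def Psin (k e : ℕ) (σ : List Bool) (n : ℕ) : Option ℕ := (ofNat Code e).evaln k (Nat.pair (encode σ) n)

abbrev Wit := List Bool × List Bool × ℕ × ℕ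

/-- The witness check: `w = (ρ0, ρ1, n, k)`. -/
def chk (p : ℕ × List Bool) (w : Wit) : Bool :=
  ((Psin w.2.2.2 p.1.unpair.1 (p.2 ++ w.1) w.2.2.1).bind fun y0 =>
    (Psin w.2.2.2 p.1.unpair.1 (p.2 ++ w.2.1) w.2.2.1).bind fun y1 =>
      ((ofNat Code p.1.unpair.2).evaln w.2.2.2 w.2.2.1).map fun _ => !(decide (y0 = y1))).getD false

theorem primrec_Psin : Primrec fun q : (ℕ × ℕ) × (List Bool × ℕ) => Psin q.1.1 q.1.2 q.2.1 q.2.2 := by
  unfold Psin
  refine Code.primrec_evaln.comp ((Primrec.pair (Primrec.fst.comp Primrec.fst) ?_).pair ?_)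
  · exact (Primrec.ofNat Code).comp (Primrec.snd.comp Primrec.fst)
  · exact Primrec₂.natPair.comp (Primrec.encode.comp (Primrec.fst.comp Primrec.snd)) (Primrec.snd.comp Primrec.snd)

theorem primrec_chk : Primrec₂ chk := by
  have a1 : Primrec fun q : (ℕ × List Bool) × Wit => q.2.2.2.2 :=
    Primrec.snd.comp (Primrec.snd.comp (Primrec.snd.comp Primrec.snd))
  have a2 : Primrec fun q : (ℕ × List Bool) × Wit => q.2.2.2.1 :=
    Primrec.fst.comp (Primrec.snd.comp (Primrec.snd.comp Primrec.snd))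
  have a3 : Primrec fun q : (ℕ × List Bool) × Wit => q.1.1.unpair.1 :=
    Primrec.fst.comp (Primrec.unpair.comp (Primrec.fst.comp Primrec.fst))
  have a4 : Primrec fun q : (ℕ × List Bool) × Wit => q.1.1.unpair.2 :=
    Primrec.snd.comp (Primrec.unpair.comp (Primrec.fst.comp Primrec.fst))
  have a5 : Primrec fun q : (ℕ × List Bool) × Wit => q.1.2 ++ q.2.1 :=
    Primrec.list_append.comp (Primrec.snd.comp Primrec.fst) (Primrec.fst.comp Primrec.snd)
  have a6 : Primrec fun q : (ℕ × List Bool) × Wit => q.1.2 ++ q.2.2.1 :=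
    Primrec.list_append.comp (Primrec.snd.comp Primrec.fst) (Primrec.fst.comp (Primrec.snd.comp Primrec.snd))
  have b1 : Primrec fun q : (ℕ × List Bool) × Wit => Psin q.2.2.2.2 q.1.1.unpair.1 (q.1.2 ++ q.2.1) q.2.2.2.1 :=
    primrec_Psin.comp ((a1.pair a3).pair (a5.pair a2))
  have b2 : Primrec fun q : (ℕ × List Bool) × Wit => Psin q.2.2.2.2 q.1.1.unpair.1 (q.1.2 ++ q.2.2.1) q.2.2.2.1 :=
    primrec_Psin.comp ((a1.pair a3).pair (a6.pair a2))
  have b3 : Primrec fun q : (ℕ × List Bool) × Wit => (ofNat Code q.1.1.unpair.2).evaln q.2.2.2.2 q.2.2.2.1 :=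
    Code.primrec_evaln.comp ((a1.pair ((Primrec.ofNat Code).comp a4)).pair a2)
  refine Primrec.option_getD.comp (Primrec.option_bind b1 ?_) (Primrec.const false)
  refine Primrec.option_bind (b2.comp Primrec.fst) ?_
  refine Primrec.option_map (b3.comp (Primrec.fst.comp Primrec.fst)) ?_
  exact Primrec.not.comp ((Primrec.eq (α := ℕ)).decide.comp (Primrec.snd.comp (Primrec.fst.comp Primrec.fst)) (Primrec.snd.comp Primrec.fst))

theorem chk_iff (p : ℕ × List Bool) (w : Wit) : chk p w = true ↔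
    ∃ y0 y1 z, Psin w.2.2.2 p.1.unpair.1 (p.2 ++ w.1) w.2.2.1 = some y0 ∧
      Psin w.2.2.2 p.1.unpair.1 (p.2 ++ w.2.1) w.2.2.1 = some y1 ∧
      (ofNat Code p.1.unpair.2).evaln w.2.2.2 w.2.2.1 = some z ∧ y0 ≠ y1 := by
  unfold chk
  rcases Psin w.2.2.2 p.1.unpair.1 (p.2 ++ w.1) w.2.2.1 with _ | y0
  · simp
  · rcases Psin w.2.2.2 p.1.unpair.1 (p.2 ++ w.2.1) w.2.2.1 with _ | y1
    · simp
    · rcases (ofNat Code p.1.unpair.2).evaln w.2.2.2 w.2.2.1 with _ | z
      · simp
      · simp

/-- search for a witness -/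
def search (p : ℕ × List Bool) : Part Wit :=
  Nat.rfindOpt fun m => (decode m : Option Wit).bind fun w => bif chk p w then some w else none

theorem partrec_search : Partrec (search : ℕ × List Bool →. Wit) := by
  refine Partrec.rfindOpt ?_
  refine Computable.option_bind (Computable.decode.comp Computable.snd) ?_
  refine Computable.cond ?_ (Computable.option_some.comp Computable.snd) (Computable.const none)
  exact primrec_chk.to_comp.comp (Computable.fst.comp Computable.fst) Computable.snd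

theorem search_spec {p : ℕ × List Bool} {w : Wit} (h : w ∈ search p) : chk p w = true := by
  obtain ⟨n, hn⟩ := Nat.rfindOpt_spec h
  simp only [Option.mem_def, Option.bind_eq_some_iff] at hn
  obtain ⟨w', _, h2⟩ := hn
  cases hc : chk p w' with
  | false => rw [hc] at h2; simp at h2
  | true => rw [hc] at h2; simp at h2; rw [← h2]; exact hc

theorem search_dom {p : ℕ × List Bool} : (search p).Dom ↔ ∃ w, chk p w = true := by
  constructor
  · intro h
    exact ⟨_, search_spec (Part.get_mem h)⟩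
  · rintro ⟨w, hw⟩
    refine Nat.rfindOpt_dom.2 ⟨encode w, w, ?_⟩
    simp [encodek, hw]

/-- the query function -/
theorem exists_q : ∃ q : ℕ × List Bool → ℕ, Computable q ∧ ∀ p (A : Set ℕ), q p ∈ jump A ↔ (search p).Dom :=
  exists_query search partrec_search


/-- One stage of the construction, relative to an answering function `ans` for the oracle, and a
query function `q`. -/
def stepP (q : ℕ × List Bool → ℕ) (ans : ℕ → Part Bool) (s : ℕ) (σ : List Bool) : Part (List Bool) :=
  (ans (Nat.pair 1 (q (s, σ)))).bind fun b =>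
    cond b
      ((search (s, σ)).bind fun w =>
        (ans (((ofNat Code s.unpair.2).evaln w.2.2.2 w.2.2.1).getD 0)).map fun b' =>
          cond (decide ((Psin w.2.2.2 s.unpair.1 (σ ++ w.1) w.2.2.1).getD 0 = cond b' 1 0))
            (σ ++ w.2.1 ++ [false]) (σ ++ w.1 ++ [false]))
      (Part.some (σ ++ [false]))

def stageP (q : ℕ × List Bool → ℕ) (ans : ℕ → Part Bool) (s : ℕ) : Part (List Bool) :=
  Nat.rec (Part.some []) (fun s IH => IH.bind fun σ => stepP q ans s σ) s

theorem stageP_zero (q : ℕ × List Bool → ℕ) (ans : ℕ → Part Bool) : stageP q ans 0 = Part.some [] := rfl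

theorem stageP_succ (q : ℕ × List Bool → ℕ) (ans : ℕ → Part Bool) (s : ℕ) :
    stageP q ans (s+1) = (stageP q ans s).bind fun σ => stepP q ans s σ := rfl

theorem mem_stepP {q : ℕ × List Bool → ℕ} {ans : ℕ → Part Bool} {s : ℕ} {σ τ : List Bool} :
    τ ∈ stepP q ans s σ ↔
      (false ∈ ans (Nat.pair 1 (q (s, σ))) ∧ τ = σ ++ [false]) ∨
      (true ∈ ans (Nat.pair 1 (q (s, σ))) ∧ ∃ w ∈ search (s, σ), ∃ b' ∈
        ans (((ofNat Code s.unpair.2).evaln w.2.2.2 w.2.2.1).getD 0),
         τ = cond (decide ((Psin w.2.2.2 s.unpair.1 (σ ++ w.1) w.2.2.1).getD 0 = cond b' 1 0))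
            (σ ++ w.2.1 ++ [false]) (σ ++ w.1 ++ [false])) := by
  unfold stepP
  rw [Part.mem_bind_iff]
  constructor
  · rintro ⟨b, hb, h⟩
    cases b with
    | false => exact Or.inl ⟨hb, by simpa using h⟩
    | true =>
      refine Or.inr ⟨hb, ?_⟩
      simp only [cond_true, Part.mem_bind_iff, Part.mem_map_iff] at h
      obtain ⟨w, hw, b', hb', rfl⟩ := h
      exact ⟨w, hw, b', hb', rfl⟩
  · rintro (⟨hb, h⟩ | ⟨hb, w, hw, b', hb', rfl⟩)
    · exact ⟨false, hb, by simpa using h⟩
    · refine ⟨true, hb, ?_⟩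
      simp only [cond_true, Part.mem_bind_iff, Part.mem_map_iff]
      exact ⟨w, hw, b', hb', rfl⟩

theorem stepP_mono {q : ℕ × List Bool → ℕ} {ans ans' : ℕ → Part Bool} (h : ∀ z b, b ∈ ans z → b ∈ ans' z)
    {s : ℕ} {σ τ : List Bool} (hτ : τ ∈ stepP q ans s σ) : τ ∈ stepP q ans' s σ := by
  rw [mem_stepP] at hτ ⊢
  rcases hτ with ⟨hb, h1⟩ | ⟨hb, w, hw, b', hb', h1⟩
  · exact Or.inl ⟨h _ _ hb, h1⟩
  · exact Or.inr ⟨h _ _ hb, w, hw, b', h _ _ hb', h1⟩

theorem stageP_mono {q : ℕ × List Bool → ℕ} {ans ans' : ℕ → Part Bool} (h : ∀ z b, b ∈ ans z → b ∈ ans' z)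
    {s : ℕ} {τ : List Bool} (hτ : τ ∈ stageP q ans s) : τ ∈ stageP q ans' s := by
  induction s generalizing τ with
  | zero => exact hτ
  | succ s ih =>
    rw [stageP_succ, Part.mem_bind_iff] at hτ ⊢
    obtain ⟨σ, hσ, h2⟩ := hτ
    exact ⟨σ, ih hσ, stepP_mono h h2⟩

/-- the true answers -/
noncomputable def ansR (O : Set ℕ) (z : ℕ) : Part Bool := open Classical in Part.some (decide (z ∈ O))

/-- the answers read off a finite string -/
def ansS (σ : List Bool) (z : ℕ) : Part Bool := (σ[z]? : Option Bool)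

theorem mem_ansR {O : Set ℕ} {z : ℕ} {b : Bool} : b ∈ ansR O z ↔ (b = true ↔ z ∈ O) := by
  classical
  unfold ansR
  rw [Part.mem_some_iff]
  by_cases h : z ∈ O
  · simp [h]
  · simp [h]

theorem mem_ansS {O : Set ℕ} {k z : ℕ} {b : Bool} : b ∈ ansS (seg O k) z ↔ z < k ∧ b ∈ ansR O z := by
  classical
  unfold ansS ansR
  rw [Part.mem_ofOption, seg_getElem?, Part.mem_some_iff, Option.mem_def]
  by_cases h : z < k
  · simp [h, eq_comm]
  · simp [h]

theorem ansS_le_ansR {O : Set ℕ} {k : ℕ} (z : ℕ) (b : Bool) (h : b ∈ ansS (seg O k) z) : b ∈ ansR O z :=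
  (mem_ansS.1 h).2

theorem ansS_mono {O : Set ℕ} {k l : ℕ} (hkl : k ≤ l) (z : ℕ) (b : Bool) (h : b ∈ ansS (seg O k) z) :
    b ∈ ansS (seg O l) z :=
  mem_ansS.2 ⟨(mem_ansS.1 h).1.trans_le hkl, (mem_ansS.1 h).2⟩

theorem stepP_cont {q : ℕ × List Bool → ℕ} {O : Set ℕ} {s : ℕ} {σ τ : List Bool} (hτ : τ ∈ stepP q (ansR O) s σ) :
    ∃ k, τ ∈ stepP q (ansS (seg O k)) s σ := by
  rw [mem_stepP] at hτ
  rcases hτ with ⟨hb, h1⟩ | ⟨hb, w, hw, b', hb', h1⟩
  · exact ⟨_, mem_stepP.2 (Or.inl ⟨mem_ansS.2 ⟨Nat.lt_succ_self _, hb⟩, h1⟩)⟩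
  · refine ⟨max (Nat.pair 1 (q (s, σ)) + 1) ((((ofNat Code s.unpair.2).evaln w.2.2.2 w.2.2.1).getD 0) + 1),
      mem_stepP.2 (Or.inr ⟨mem_ansS.2 ⟨?_, hb⟩, w, hw, b', mem_ansS.2 ⟨?_, hb'⟩, h1⟩)⟩
    · exact lt_of_lt_of_le (Nat.lt_succ_self _) (le_max_left _ _)
    · exact lt_of_lt_of_le (Nat.lt_succ_self _) (le_max_right _ _)

theorem stageP_cont {q : ℕ × List Bool → ℕ} {O : Set ℕ} {s : ℕ} {τ : List Bool} (hτ : τ ∈ stageP q (ansR O) s) :
    ∃ k, τ ∈ stageP q (ansS (seg O k)) s := by
  induction s generalizing τ with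
  | zero => exact ⟨0, hτ⟩
  | succ s ih =>
    rw [stageP_succ, Part.mem_bind_iff] at hτ
    obtain ⟨σ, hσ, h2⟩ := hτ
    obtain ⟨k1, hk1⟩ := ih hσ
    obtain ⟨k2, hk2⟩ := stepP_cont h2
    refine ⟨max k1 k2, ?_⟩
    rw [stageP_succ, Part.mem_bind_iff]
    exact ⟨σ, stageP_mono (ansS_mono (le_max_left _ _)) hk1, stepP_mono (ansS_mono (le_max_right _ _)) hk2⟩

theorem partrec_stepP {q : ℕ × List Bool → ℕ} (hq : Computable q) :
    Partrec (fun p : List Bool × (ℕ × List Bool) => stepP q (ansS p.1) p.2.1 p.2.2 : List Bool × (ℕ × List Bool) →. List Bool) := by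
  have hans : Partrec₂ (ansS : List Bool → ℕ →. Bool) := Computable.ofOption Computable.list_getElem?
  unfold stepP
  refine Partrec.bind (f := fun p : List Bool × (ℕ × List Bool) => ansS p.1 (Nat.pair 1 (q (p.2.1, p.2.2))))
    (hans.comp Computable.fst (Primrec₂.natPair.to_comp.comp (Computable.const 1)
      (hq.comp (Computable.pair (Computable.fst.comp Computable.snd) (Computable.snd.comp Computable.snd))))) ?_
  refine Partrec.cond (c := fun r : (List Bool × (ℕ × List Bool)) × Bool => r.2) Computable.snd ?_ ?_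
  · refine Partrec.bind (f := fun r : (List Bool × (ℕ × List Bool)) × Bool => search (r.1.2.1, r.1.2.2))
      (partrec_search.comp (Computable.pair (Computable.fst.comp (Computable.snd.comp Computable.fst))
        (Computable.snd.comp (Computable.snd.comp Computable.fst)))) ?_
    -- now context: (p, b), w
    have c1 : Primrec fun r : ((List Bool × (ℕ × List Bool)) × Bool) × Wit => r.1.1.1 :=
      Primrec.fst.comp (Primrec.fst.comp Primrec.fst)
    have c2 : Primrec fun r : ((List Bool × (ℕ × List Bool)) × Bool) × Wit => r.1.1.2.1.unpair.2 :=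
      Primrec.snd.comp (Primrec.unpair.comp (Primrec.fst.comp (Primrec.snd.comp (Primrec.fst.comp Primrec.fst))))
    have c3 : Primrec fun r : ((List Bool × (ℕ × List Bool)) × Bool) × Wit => r.2.2.2.2 :=
      Primrec.snd.comp (Primrec.snd.comp (Primrec.snd.comp Primrec.snd))
    have c4 : Primrec fun r : ((List Bool × (ℕ × List Bool)) × Bool) × Wit => r.2.2.2.1 :=
      Primrec.fst.comp (Primrec.snd.comp (Primrec.snd.comp Primrec.snd))
    have c5 : Primrec fun r : ((List Bool × (ℕ × List Bool)) × Bool) × Wit => r.1.1.2.1.unpair.1 :=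
      Primrec.fst.comp (Primrec.unpair.comp (Primrec.fst.comp (Primrec.snd.comp (Primrec.fst.comp Primrec.fst))))
    have c6 : Primrec fun r : ((List Bool × (ℕ × List Bool)) × Bool) × Wit => r.1.1.2.2 :=
      Primrec.snd.comp (Primrec.snd.comp (Primrec.fst.comp Primrec.fst))
    have c7 : Primrec fun r : ((List Bool × (ℕ × List Bool)) × Bool) × Wit => r.1.1.2.2 ++ r.2.1 :=
      Primrec.list_append.comp c6 (Primrec.fst.comp Primrec.snd)
    have c8 : Primrec fun r : ((List Bool × (ℕ × List Bool)) × Bool) × Wit => r.1.1.2.2 ++ r.2.2.1 :=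
      Primrec.list_append.comp c6 (Primrec.fst.comp (Primrec.snd.comp Primrec.snd))
    have c9 : Primrec fun r : ((List Bool × (ℕ × List Bool)) × Bool) × Wit =>
        ((ofNat Code r.1.1.2.1.unpair.2).evaln r.2.2.2.2 r.2.2.2.1).getD 0 :=
      Primrec.option_getD.comp (Code.primrec_evaln.comp ((c3.pair ((Primrec.ofNat Code).comp c2)).pair c4)) (Primrec.const 0)
    refine Partrec.map (f := fun r : ((List Bool × (ℕ × List Bool)) × Bool) × Wit =>
       ansS r.1.1.1 (((ofNat Code r.1.1.2.1.unpair.2).evaln r.2.2.2.2 r.2.2.2.1).getD 0))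
       (hans.comp c1.to_comp c9.to_comp) ?_
    refine Primrec.to_comp ?_
    refine Primrec.cond ?_ ?_ ?_
    · refine (Primrec.eq (α := ℕ)).decide.comp ?_ ?_
      · refine Primrec.option_getD.comp ?_ (Primrec.const 0)
        exact primrec_Psin.comp (((c3.pair c5).pair (c7.pair c4)).comp Primrec.fst)
      · exact Primrec.cond Primrec.snd (Primrec.const 1) (Primrec.const 0)
    · exact Primrec.list_append.comp (c8.comp Primrec.fst) (Primrec.const [false])
    · exact Primrec.list_append.comp (c7.comp Primrec.fst) (Primrec.const [false])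
  · exact (Primrec.list_append.comp (Primrec.snd.comp (Primrec.snd.comp Primrec.fst)) (Primrec.const [false])).to_comp

theorem partrec_stageP {q : ℕ × List Bool → ℕ} (hq : Computable q) :
    Partrec₂ (fun (σ : List Bool) (s : ℕ) => stageP q (ansS σ) s : List Bool → ℕ →. List Bool) := by
  have h1 := partrec_stepP hq
  have h2 : Computable fun a : (List Bool × ℕ) × (ℕ × List Bool) => (a.1.1, (a.2.1, a.2.2)) :=
    Computable.pair (Computable.fst.comp Computable.fst)
      (Computable.pair (Computable.fst.comp Computable.snd) (Computable.snd.comp Computable.snd))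
  have h3 := h1.comp h2
  have h4 := Partrec.nat_rec (f := fun p : List Bool × ℕ => p.2) (g := fun _ => Part.some [])
    (h := fun (p : List Bool × ℕ) (r : ℕ × List Bool) => stepP q (ansS p.1) r.1 r.2)
    Computable.snd (Computable.const []) h3
  exact h4


section construction

/-- a fixed computable query function. -/
noncomputable def qq : ℕ × List Bool → ℕ := Classical.choose exists_q

theorem qq_comp : Computable qq := (Classical.choose_spec exists_q).1

theorem qq_spec (p : ℕ × List Bool) (A : Set ℕ) : qq p ∈ jump A ↔ (search p).Dom :=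
  (Classical.choose_spec exists_q).2 p A

theorem qq_zeroOmega (p : ℕ × List Bool) : Nat.pair 1 (qq p) ∈ zeroOmega ↔ ∃ w, chk p w = true := by
  unfold zeroOmega
  show (Nat.pair 1 (qq p)).unpair.2 ∈ iterJump (Nat.pair 1 (qq p)).unpair.1 ↔ _
  rw [Nat.unpair_pair]
  show qq p ∈ jump _ ↔ _
  rw [qq_spec, search_dom]

theorem stage_dom (s : ℕ) : (stageP qq (ansR zeroOmega) s).Dom := by
  induction s with
  | zero => trivial
  | succ s ih =>
    obtain ⟨σ, hσ⟩ := Part.dom_iff_mem.1 ih
    rw [Part.dom_iff_mem]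
    by_cases h : Nat.pair 1 (qq (s, σ)) ∈ zeroOmega
    · have h2 := search_dom.2 ((qq_zeroOmega _).1 h)
      obtain ⟨w, hw⟩ := Part.dom_iff_mem.1 h2
      classical
      have h3 : ∃ τ, τ ∈ stepP qq (ansR zeroOmega) s σ :=
        ⟨_, mem_stepP.2 (Or.inr ⟨mem_ansR.2 (by simpa using h), w, hw,
          decide ((((ofNat Code s.unpair.2).evaln w.2.2.2 w.2.2.1).getD 0) ∈ zeroOmega), mem_ansR.2 (by simp), rfl⟩)⟩
      obtain ⟨τ, hτ⟩ := h3
      refine ⟨τ, ?_⟩
      rw [stageP_succ, Part.mem_bind_iff]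
      exact ⟨σ, hσ, hτ⟩
    · refine ⟨σ ++ [false], ?_⟩
      rw [stageP_succ, Part.mem_bind_iff]
      refine ⟨σ, hσ, ?_⟩
      rw [mem_stepP]
      exact Or.inl ⟨mem_ansR.2 (by simpa using h), rfl⟩

/-- the `s`-th initial segment. -/
noncomputable def st (s : ℕ) : List Bool := (stageP qq (ansR zeroOmega) s).get (stage_dom s)

theorem st_mem (s : ℕ) : st s ∈ stageP qq (ansR zeroOmega) s := Part.get_mem _

theorem st_step (s : ℕ) : st (s+1) ∈ stepP qq (ansR zeroOmega) s (st s) := by
  have h := st_mem (s+1)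
  rw [stageP_succ, Part.mem_bind_iff] at h
  obtain ⟨σ, h1, h2⟩ := h
  rwa [Part.mem_unique h1 (st_mem s)] at h2

theorem st_ext (s : ℕ) : ∃ ρ, st (s+1) = st s ++ ρ ++ [false] := by
  have h := st_step s
  rw [mem_stepP] at h
  rcases h with ⟨_, h⟩ | ⟨_, w, _, b', _, h⟩
  · exact ⟨[], by simpa using h⟩
  · cases hc : (decide ((Psin w.2.2.2 s.unpair.1 (st s ++ w.1) w.2.2.1).getD 0 = cond b' 1 0)) with
    | true => rw [hc] at h; exact ⟨_, h⟩
    | false => rw [hc] at h; exact ⟨_, h⟩

theorem st_prefix_succ (s : ℕ) : st s <+: st (s+1) := by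
  obtain ⟨ρ, h⟩ := st_ext s
  rw [h, List.append_assoc]
  exact List.prefix_append _ _

theorem st_mono {s t : ℕ} (h : s ≤ t) : st s <+: st t := by
  induction h with
  | refl => exact List.prefix_rfl
  | step _ ih => exact ih.trans (st_prefix_succ _)

theorem st_length (s : ℕ) : s ≤ (st s).length := by
  induction s with
  | zero => exact Nat.zero_le _
  | succ s ih =>
    obtain ⟨ρ, h⟩ := st_ext s
    rw [h]; simp; omega

/-- The set constructed. -/
def DD : Set ℕ := {n | (st (n+1))[n]? = some true}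

theorem seg_ext {A : Set ℕ} {σ : List Bool} (h : ∀ n, n < σ.length → (σ[n]? = some true ↔ n ∈ A)) :
    seg A σ.length = σ := by
  classical
  apply List.ext_getElem?
  intro n
  rw [seg_getElem?]
  by_cases hn : n < σ.length
  · rw [if_pos hn]
    have := h n hn
    rw [List.getElem?_eq_getElem hn] at this ⊢
    congr 1
    cases hb : σ[n] with
    | true => rw [hb] at this; simpa using this
    | false => rw [hb] at this; simpa using this
  · rw [if_neg hn, List.getElem?_eq_none (by omega)]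

theorem getElem?_of_isPrefix {σ τ : List Bool} (h : σ <+: τ) {n : ℕ} (hn : n < σ.length) : τ[n]? = σ[n]? := by
  obtain ⟨t, rfl⟩ := h
  exact List.getElem?_append_left hn

theorem st_eq_seg (s : ℕ) : seg DD (st s).length = st s := by
  apply seg_ext
  intro n hn
  show _ ↔ (st (n+1))[n]? = some true
  have h1 : n < (st (n+1)).length := lt_of_lt_of_le (Nat.lt_succ_self n) (st_length (n+1))
  rcases le_total s (n+1) with h | h
  · rw [getElem?_of_isPrefix (st_mono h) hn]
  · rw [getElem?_of_isPrefix (st_mono h) h1]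

theorem DD_le : degOf DD ≤ degOf zeroOmega := by
  classical
  rw [degOf_le]
  let g : List Bool → ℕ → Part ℕ := fun σ n =>
    (stageP qq (ansS σ) (n+1)).map fun τ => cond (decide (τ[n]? = some true)) 1 0
  refine recIn_of_string zeroOmega (chi DD) g ?_ ?_ ?_
  · have h1 : Partrec fun p : List Bool × ℕ => stageP qq (ansS p.1) (p.2 + 1) := by
      have := (partrec_stageP qq_comp).comp (Computable.fst (α := List Bool) (β := ℕ))
        (Computable.succ.comp Computable.snd)
      exact this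
    refine Partrec.map h1 ?_
    refine Primrec.to_comp (Primrec.cond ?_ (Primrec.const 1) (Primrec.const 0))
    refine (Primrec.eq (α := Option Bool)).decide.comp ?_ (Primrec.const (some true))
    exact Primrec.list_getElem?.comp Primrec.snd (Primrec.snd.comp Primrec.fst)
  · intro k n y hy
    obtain ⟨τ, hτ, rfl⟩ := (Part.mem_map_iff _).1 hy
    have h2 : τ ∈ stageP qq (ansR zeroOmega) (n+1) := stageP_mono (fun z b h => ansS_le_ansR z b h) hτ
    have h3 := Part.mem_unique h2 (st_mem (n+1))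
    subst h3
    unfold chi
    by_cases h : n ∈ DD
    · rw [if_pos h]
      have : (st (n+1))[n]? = some true := h
      rw [this]; rfl
    · rw [if_neg h]
      have : ¬ (st (n+1))[n]? = some true := h
      simp only [this, decide_false, cond_false]
  · intro n
    obtain ⟨k, hk⟩ := stageP_cont (st_mem (n+1))
    exact ⟨k, Part.dom_iff_mem.2 ⟨_, (Part.mem_map_iff _).2 ⟨_, hk, rfl⟩⟩⟩


/-- Requirement: if the functional with index `e` computes `T` from `DD`, and `T` is the preimage of
`zeroOmega` under the total function with index `j`, then there is no splitting above the `⟨e,j⟩`-th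
initial segment. -/
theorem no_split (e j : ℕ) (hmono : ∀ {σ τ : List Bool} {n y : ℕ}, σ <+: τ → y ∈ Psi e σ n → y ∈ Psi e τ n)
    (T : Set ℕ) (hT : ∀ n k y, y ∈ Psi e (seg DD k) n → y = chi T n)
    (hj : ∀ n, ∃ z ∈ (ofNat Code j).eval n, (n ∈ T ↔ z ∈ zeroOmega)) (ρ0 ρ1 : List Bool) (n y0 y1 : ℕ)
    (h0 : y0 ∈ Psi e (st (Nat.pair e j) ++ ρ0) n) (h1 : y1 ∈ Psi e (st (Nat.pair e j) ++ ρ1) n) : y0 = y1 := by
  classical
  by_contra hne
  set s := Nat.pair e j with hs
  have hse : s.unpair.1 = e := by rw [hs, Nat.unpair_pair]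
  have hsj : s.unpair.2 = j := by rw [hs, Nat.unpair_pair]
  obtain ⟨z, hz, hzT⟩ := hj n
  have hw : ∃ w, chk (s, st s) w = true := by
    obtain ⟨k0, hk0⟩ := Code.evaln_complete.1 h0
    obtain ⟨k1, hk1⟩ := Code.evaln_complete.1 h1
    obtain ⟨k2, hk2⟩ := Code.evaln_complete.1 hz
    refine ⟨(ρ0, ρ1, n, max k0 (max k1 k2)), (chk_iff _ _).2 ⟨y0, y1, z, ?_, ?_, ?_, hne⟩⟩
    · simp only [hse]
      exact Code.evaln_mono (le_max_left _ _) hk0
    · simp only [hse]
      exact Code.evaln_mono ((le_max_left _ _).trans (le_max_right _ _)) hk1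
    · simp only [hsj]
      exact Code.evaln_mono ((le_max_right _ _).trans (le_max_right _ _)) hk2
  have hq := (qq_zeroOmega (s, st s)).2 hw
  have hstep := st_step s
  rw [mem_stepP] at hstep
  rcases hstep with ⟨hb, _⟩ | ⟨_, w, hws, b', hb', hst⟩
  · rw [mem_ansR] at hb
    exact absurd (hb.2 hq) (by simp)
  · have hchk := search_spec hws
    obtain ⟨u0, u1, v, hu0, hu1, hv, hu⟩ := (chk_iff _ _).1 hchk
    obtain ⟨a0, a1, m, k⟩ := w
    simp only [hse, hsj] at hu0 hu1 hv hb' hst
    rw [hv] at hb'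
    rw [hu0] at hst
    simp only [Option.getD_some] at hb' hst
    -- value of T at m
    obtain ⟨z', hz', hzT'⟩ := hj m
    have hv' : v ∈ (ofNat Code j).eval m := Code.evaln_sound hv
    have hzv : z' = v := Part.mem_unique hz' hv'
    subst hzv
    have hbT : cond b' 1 0 = chi T m := by
      rw [mem_ansR] at hb'
      unfold chi
      by_cases hm : m ∈ T
      · rw [if_pos hm, hb'.2 (hzT'.1 hm)]; rfl
      · rw [if_neg hm]
        cases b' with
        | true => exact absurd (hzT'.2 (hb'.1 rfl)) hm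
        | false => rfl
    have hlen := st_eq_seg (s+1)
    by_cases hc : u0 = cond b' 1 0
    · rw [hc] at hst
      simp only [decide_true, cond_true] at hst
      have hp : st s ++ a1 <+: seg DD (st (s+1)).length := by
        rw [hlen, hst]; exact List.prefix_append _ _
      have h3 : u1 ∈ Psi e (st s ++ a1) m := Code.evaln_sound hu1
      have h4 := hT _ _ _ (hmono hp h3)
      exact hu (by rw [hc, h4, hbT])
    · simp only [hc, decide_false, cond_false] at hst
      have hp : st s ++ a0 <+: seg DD (st (s+1)).length := by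
        rw [hlen, hst]; exact List.prefix_append _ _
      have h3 : u0 ∈ Psi e (st s ++ a0) m := Code.evaln_sound hu0
      have h4 := hT _ _ _ (hmono hp h3)
      exact hc (by rw [h4, hbT])

/-- index of a functional -/
theorem exists_index {g : List Bool → ℕ → Part ℕ} (hg : Partrec₂ (g : List Bool → ℕ →. ℕ)) :
    ∃ e, ∀ σ n, Psi e σ n = g σ n := by
  obtain ⟨c, hc'⟩ := Code.exists_code.1 hg
  refine ⟨encode c, fun σ n => ?_⟩
  unfold Psi
  rw [ofNat_encode, hc']
  simp only [decode_prod_val, Nat.unpair_pair, encodek, decode_nat, Option.map_some,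
      Option.bind_some, Part.coe_some, Part.bind_some]
  exact Part.map_id' (fun x => rfl) _

/-- index of a total computable function -/
theorem exists_index' {f : ℕ → ℕ} (hf : Computable f) : ∃ j, ∀ n, f n ∈ (ofNat Code j).eval n := by
  obtain ⟨c, hc'⟩ := Code.exists_code.1 (Partrec.nat_iff.1 hf)
  refine ⟨encode c, fun n => ?_⟩
  rw [ofNat_encode, hc']
  exact Part.mem_some _

def MRed (A B : Set ℕ) : Prop := ∃ f : ℕ → ℕ, Computable f ∧ ∀ n, n ∈ A ↔ f n ∈ B

theorem not_mred_DD : ¬ MRed DD zeroOmega := by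
  classical
  rintro ⟨f, hf, hfD⟩
  obtain ⟨j, hj⟩ := exists_index' hf
  let g : List Bool → ℕ → Part ℕ := fun σ n => ((σ[n]?).map (fun b => cond b 1 0) : Option ℕ)
  have hg : Partrec₂ (g : List Bool → ℕ →. ℕ) :=
    Computable.ofOption (Computable.option_map (Computable.list_getElem?)
        ((Computable.cond Computable.id (Computable.const 1) (Computable.const 0)).comp Computable.snd).to₂)
  obtain ⟨e, he⟩ := exists_index hg
  have hmem : ∀ σ n y, y ∈ Psi e σ n ↔ ∃ b, σ[n]? = some b ∧ cond b 1 0 = y := by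
    intro σ n y
    rw [he]
    simp only [g, Part.mem_ofOption, Option.mem_def, Option.map_eq_some_iff]
  have := no_split e j (fun {σ τ n y} h hy => by
      rw [hmem] at hy ⊢
      obtain ⟨b, hb, rfl⟩ := hy
      refine ⟨b, ?_, rfl⟩
      rw [getElem?_of_isPrefix h (List.getElem?_eq_some_iff.1 hb).1, hb]) DD
    (fun n k y hy => by
      rw [hmem] at hy
      obtain ⟨b, hb, rfl⟩ := hy
      rw [seg_getElem?] at hb
      by_cases hn : n < k
      · rw [if_pos hn] at hb
        simp only [Option.some.injEq] at hb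
        subst hb
        by_cases h : n ∈ DD <;> simp [chi, h]
      · rw [if_neg hn] at hb; simp at hb)
    (fun n => ⟨f n, hj n, hfD n⟩) [false] [true] (st (Nat.pair e j)).length 0 1
    (by rw [hmem]; exact ⟨false, by simp, rfl⟩) (by rw [hmem]; exact ⟨true, by simp, rfl⟩)
  exact absurd this (by norm_num)

theorem mred_of_computable {A B : Set ℕ} (hA : Computable (chi A)) (hB : ∃ x, x ∈ B) (hB' : ∃ x, x ∉ B) : MRed A B := by
  obtain ⟨a, ha⟩ := hB
  obtain ⟨b, hb⟩ := hB'
  refine ⟨fun n => cond (decide (chi A n = 1)) a b, ?_, ?_⟩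
  · refine Computable.cond ?_ (Computable.const a) (Computable.const b)
    exact (Primrec.eq (α := ℕ)).decide.to_comp.comp hA (Computable.const 1)
  · intro n
    by_cases h : n ∈ A
    · simp [chi, h, ha]
    · simp [chi, h, hb]

theorem zeroOmega_nontriv : (∃ x, x ∈ zeroOmega) ∧ (∃ x, x ∉ zeroOmega) := by
  constructor
  · obtain ⟨q, _, hq⟩ := exists_query (fun _ : ℕ => Part.some 0) (Computable.const 0)
    refine ⟨Nat.pair 1 (q 0), ?_⟩
    show (Nat.pair 1 (q 0)).unpair.2 ∈ iterJump (Nat.pair 1 (q 0)).unpair.1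
    rw [Nat.unpair_pair]
    exact (hq 0 ∅).2 trivial
  · refine ⟨Nat.pair 0 0, ?_⟩
    show ¬ (Nat.pair 0 0).unpair.2 ∈ iterJump (Nat.pair 0 0).unpair.1
    rw [Nat.unpair_pair]
    exact fun h => h

theorem main_abstract {T : Set ℕ} (hT : MRed T zeroOmega) : degOf T ≠ degOf DD := by
  classical
  intro heq
  rw [degOf_eq] at heq
  obtain ⟨h1, h2⟩ := heq
  obtain ⟨f, hf, hfT⟩ := hT
  obtain ⟨j, hj⟩ := exists_index' hf
  obtain ⟨g, ⟨hgp, hgm⟩, hg⟩ := exists_functional DD (RecursiveIn.iff_nat.1 h1)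
  obtain ⟨e, he⟩ := exists_index hgp
  have hns := no_split e j (fun {σ τ n y} h hy => by rw [he] at hy ⊢; exact hgm h hy) T
    (fun n k y hy => by
      rw [he] at hy
      have := (hg n y).2 ⟨k, hy⟩
      exact Part.mem_some_iff.1 this)
    (fun n => ⟨f n, hj n, hfT n⟩)
  set σ := st (Nat.pair e j) with hσ
  -- T is computable
  let F : ℕ → Part ℕ := fun n => Nat.rfindOpt fun m =>
    (decode m : Option (List Bool × ℕ)).bind fun r => Psin r.2 e (σ ++ r.1) n
  have hF : Partrec (F : ℕ →. ℕ) := by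
    refine Partrec.rfindOpt (f := fun (n m : ℕ) => (decode m : Option (List Bool × ℕ)).bind fun r => Psin r.2 e (σ ++ r.1) n) ?_
    refine Computable.option_bind (Computable.decode.comp Computable.snd) ?_
    refine Primrec.to_comp ?_
    exact primrec_Psin.comp (((Primrec.snd.comp Primrec.snd).pair (Primrec.const e)).pair
      ((Primrec.list_append.comp (Primrec.const σ) (Primrec.fst.comp Primrec.snd)).pair (Primrec.fst.comp Primrec.fst)))
  have hTc : Computable (chi T) := by
    refine Partrec.of_eq_tot hF ?_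
    intro n
    obtain ⟨k, hk⟩ := (hg n (chi T n)).1 (Part.mem_some _)
    -- extend to above σ
    have hlen : seg DD σ.length = σ := st_eq_seg _
    have hk2 := hgm (seg_mono DD (le_max_left k σ.length)) hk
    have hpre : σ <+: seg DD (max k σ.length) := by
      have := seg_mono DD (le_max_right k σ.length)
      rwa [hlen] at this
    obtain ⟨ρ, hρ⟩ := hpre
    rw [← hρ, ← he] at hk2
    obtain ⟨t, ht⟩ := Code.evaln_complete.1 hk2
    have hdom : (F n).Dom := by
      refine Nat.rfindOpt_dom.2 ⟨encode (ρ, t), chi T n, ?_⟩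
      simp only [encodek, Option.bind_some]
      exact ht
    obtain ⟨y, hy⟩ := Part.dom_iff_mem.1 hdom
    obtain ⟨m, hm⟩ := Nat.rfindOpt_spec hy
    simp only [Option.mem_def, Option.bind_eq_some_iff] at hm
    obtain ⟨r, _, hr⟩ := hm
    have hr' : y ∈ Psi e (σ ++ r.1) n := Code.evaln_sound hr
    have := hns ρ r.1 n (chi T n) y hk2 hr'
    rw [this]; exact hy
  have hDc : Computable (chi DD) := by
    refine RecursiveIn.partrec_of_oracle ?_ h2
    intro g hg
    rw [Set.mem_singleton_iff] at hg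
    rw [hg]
    exact hTc
  exact not_mred_DD (mred_of_computable hDc zeroOmega_nontriv.1 zeroOmega_nontriv.2)

end construction

section inj
variable {S : Sig}

theorem gnTerm_inj {n : ℕ} : ∀ t t' : S.lang.Term (Empty ⊕ Fin n), gnTerm S t = gnTerm S t' → t = t' := by
  intro t
  induction t with
  | var v =>
    intro t' h
    rcases v with e | i
    · exact e.elim
    · cases t' with
      | var v' =>
        rcases v' with e | i'
        · exact e.elim
        · simp only [gnTerm, Nat.pair_eq_pair, true_and] at h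
          rw [Fin.val_inj] at h
          rw [h]
      | func f ts => simp [gnTerm] at h
  | @func l f ts ih =>
    intro t' h
    cases t' with
    | var v' =>
      rcases v' with e | i'
      · exact e.elim
      · simp [gnTerm] at h
    | @func l' f' ts' =>
      simp only [gnTerm, Nat.pair_eq_pair, true_and, encode_inj] at h
      obtain ⟨h1, h2⟩ := h
      have hl : l = l' := by rw [← f.2.2, ← f'.2.2, h1]
      subst hl
      have hf : f = f' := Subtype.ext h1
      subst hf
      have := List.ofFn_injective h2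
      congr 1
      funext i
      exact ih i _ (congrFun this i)

theorem gnFormula_inj {n : ℕ} (φ : S.lang.BoundedFormula Empty n) :
    ∀ φ' : S.lang.BoundedFormula Empty n, gnFormula S φ = gnFormula S φ' → φ = φ' := by
  induction φ with
  | falsum =>
    intro φ' h
    cases φ' <;> simp [gnFormula] at h
    rfl
  | equal t₁ t₂ =>
    intro φ' h
    cases φ' <;> simp [gnFormula] at h
    rw [gnTerm_inj _ _ h.1, gnTerm_inj _ _ h.2]
  | @rel n l R ts =>
    intro φ' h
    cases φ' with
    | falsum => simp [gnFormula] at h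
    | equal _ _ => simp [gnFormula] at h
    | imp _ _ => simp [gnFormula] at h
    | all _ => simp [gnFormula] at h
    | @rel _ l' R' ts' =>
      simp only [gnFormula, Nat.pair_eq_pair, true_and, encode_inj] at h
      obtain ⟨h1, h2⟩ := h
      have hl : l = l' := by rw [← R.2.2, ← R'.2.2, h1]
      subst hl
      have hf : R = R' := Subtype.ext h1
      subst hf
      have := List.ofFn_injective h2
      congr 1
      funext i
      exact gnTerm_inj _ _ (congrFun this i)
  | imp φ ψ ih1 ih2 =>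
    intro φ' h
    cases φ' <;> simp [gnFormula] at h
    rw [ih1 _ h.1, ih2 _ h.2]
  | all φ ih =>
    intro φ' h
    cases φ' <;> simp [gnFormula] at h
    rw [ih _ h]

end inj


section semantics
variable {S : Sig} (M : CompStr S)

/-- `x` is the code of a formula in context `n` which is true at `a`. -/
def TrP (n x : ℕ) (a : Fin n → M.U) : Prop :=
  ∃ φ : S.lang.BoundedFormula Empty n, gnFormula S φ = x ∧
    @FirstOrder.Language.BoundedFormula.Realize S.lang M.U M.str _ _ φ default a

/-- `x` is the code of a formula in context `n` which is false at `a`. -/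
def FaP (n x : ℕ) (a : Fin n → M.U) : Prop :=
  ∃ φ : S.lang.BoundedFormula Empty n, gnFormula S φ = x ∧
    ¬ @FirstOrder.Language.BoundedFormula.Realize S.lang M.U M.str _ _ φ default a

def la {n : ℕ} (a : Fin n → M.U) : List ℕ := List.ofFn fun i => (a i : ℕ)

theorem la_length {n : ℕ} (a : Fin n → M.U) : (la M a).length = n := by simp [la]

theorem la_inj {n : ℕ} {a b : Fin n → M.U} (h : la M a = la M b) : a = b := by
  have := List.ofFn_injective h
  funext i
  exact Subtype.ext (congrFun this i)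

theorem la_snoc {n : ℕ} (a : Fin n → M.U) (u : M.U) : la M (Fin.snoc a u) = la M a ++ [(u : ℕ)] := by
  unfold la
  rw [List.ofFn_succ', List.concat_eq_append]
  simp

def AD : Set (ℕ × List ℕ) := atomicDiagram S M.U M.str

theorem mem_AD {n x : ℕ} {a : Fin n → M.U} : (x, la M a) ∈ AD M ↔
    ∃ φ : S.lang.BoundedFormula Empty n, φ.IsAtomic ∧ gnFormula S φ = x ∧
    @FirstOrder.Language.BoundedFormula.Realize S.lang M.U M.str _ _ φ default a := by
  unfold AD atomicDiagram
  constructor
  · rintro ⟨n', φ, a', h1, h2, h3⟩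
    simp only [Prod.mk.injEq] at h3
    obtain ⟨h3, h4⟩ := h3
    have hn : n = n' := by
      have := congrArg List.length h4
      simpa [la] using this
    subst hn
    have : a = a' := la_inj M h4
    subst this
    exact ⟨φ, h1, h3.symm, h2⟩
  · rintro ⟨φ, h1, h2, h3⟩
    exact ⟨n, φ, a, h1, h3, by rw [h2]; rfl⟩

theorem TrP_atomic {n x : ℕ} {a : Fin n → M.U} (hx : x.unpair.1 = 1 ∨ x.unpair.1 = 2) :
    TrP M n x a ↔ (x, la M a) ∈ AD M := by
  rw [mem_AD]
  constructor
  · rintro ⟨φ, h1, h2⟩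
    refine ⟨φ, ?_, h1, h2⟩
    subst h1
    cases φ with
    | falsum => simp [gnFormula] at hx
    | equal t₁ t₂ => exact FirstOrder.Language.BoundedFormula.IsAtomic.equal t₁ t₂
    | rel R ts => exact FirstOrder.Language.BoundedFormula.IsAtomic.rel R ts
    | imp _ _ => simp [gnFormula] at hx
    | all _ => simp [gnFormula] at hx
  · rintro ⟨φ, _, h1, h2⟩
    exact ⟨φ, h1, h2⟩

theorem AD_self {n t : ℕ} {a : Fin n → M.U} :
    (Nat.pair 1 (Nat.pair t t), la M a) ∈ AD M ↔ ∃ t' : S.lang.Term (Empty ⊕ Fin n), gnTerm S t' = t := by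
  rw [mem_AD]
  constructor
  · rintro ⟨φ, _, h1, _⟩
    cases φ <;> simp [gnFormula] at h1
    exact ⟨_, h1.1⟩
  · rintro ⟨t', rfl⟩
    let _ := M.str
    refine ⟨t'.bdEqual t', FirstOrder.Language.BoundedFormula.IsAtomic.equal _ _, rfl, ?_⟩
    rw [FirstOrder.Language.BoundedFormula.realize_bdEqual]

/-- well-formedness of (codes of) atomic formulas, tested via the atomic diagram -/
def wfAt (x : ℕ) (l : List ℕ) : Prop :=
  (x.unpair.1 = 1 ∧ (Nat.pair 1 (Nat.pair x.unpair.2.unpair.1 x.unpair.2.unpair.1), l) ∈ AD M ∧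
    (Nat.pair 1 (Nat.pair x.unpair.2.unpair.2 x.unpair.2.unpair.2), l) ∈ AD M) ∨
  (x.unpair.1 = 2 ∧ x.unpair.2.unpair.1 ∈ S.R ∧
    (ofNat (List ℕ) x.unpair.2.unpair.2).length = S.rarity x.unpair.2.unpair.1 ∧
    ∀ t ∈ ofNat (List ℕ) x.unpair.2.unpair.2, (Nat.pair 1 (Nat.pair t t), l) ∈ AD M)

theorem wfAt_iff {n x : ℕ} {a : Fin n → M.U} : wfAt M x (la M a) ↔
    (x.unpair.1 = 1 ∨ x.unpair.1 = 2) ∧ ∃ φ : S.lang.BoundedFormula Empty n, gnFormula S φ = x := by
  unfold wfAt
  constructor
  · rintro (⟨h1, h2, h3⟩ | ⟨h1, h2, h3, h4⟩)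
    · refine ⟨Or.inl h1, ?_⟩
      rw [AD_self] at h2 h3
      obtain ⟨t1, ht1⟩ := h2
      obtain ⟨t2, ht2⟩ := h3
      refine ⟨.equal t1 t2, ?_⟩
      show Nat.pair 1 (Nat.pair (gnTerm S t1) (gnTerm S t2)) = x
      rw [ht1, ht2, Nat.pair_unpair, ← h1, Nat.pair_unpair]
    · refine ⟨Or.inr h1, ?_⟩
      simp only [AD_self] at h4
      have h5 : ∀ i : Fin (S.rarity x.unpair.2.unpair.1), ∃ t' : S.lang.Term (Empty ⊕ Fin n),
          gnTerm S t' = (ofNat (List ℕ) x.unpair.2.unpair.2)[i]'(by rw [h3]; exact i.2) := by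
        intro i
        exact h4 _ (List.getElem_mem _)
      choose ts hts using h5
      refine ⟨.rel (⟨x.unpair.2.unpair.1, h2, rfl⟩ : S.lang.Relations (S.rarity x.unpair.2.unpair.1)) ts, ?_⟩
      show Nat.pair 2 (Nat.pair x.unpair.2.unpair.1 (encode (List.ofFn fun i => gnTerm S (ts i)))) = x
      have h6 : (List.ofFn fun i => gnTerm S (ts i)) = ofNat (List ℕ) x.unpair.2.unpair.2 := by
        apply List.ext_getElem
        · rw [List.length_ofFn, h3]
        · intro i h7 h8
          rw [List.getElem_ofFn]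
          exact hts _
      rw [h6, encode_ofNat, Nat.pair_unpair, ← h1, Nat.pair_unpair]
  · rintro ⟨hx, φ, rfl⟩
    cases φ with
    | falsum => simp [gnFormula] at hx
    | imp _ _ => simp [gnFormula] at hx
    | all _ => simp [gnFormula] at hx
    | equal t₁ t₂ =>
      left
      simp only [gnFormula, Nat.unpair_pair, true_and]
      rw [AD_self, AD_self]
      exact ⟨⟨_, rfl⟩, ⟨_, rfl⟩⟩
    | @rel _ l R ts =>
      right
      simp only [gnFormula, Nat.unpair_pair, true_and, ofNat_encode, List.length_ofFn]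
      refine ⟨R.2.1, R.2.2.symm, ?_⟩
      intro t ht
      rw [List.mem_ofFn] at ht
      obtain ⟨i, rfl⟩ := ht
      rw [AD_self]
      exact ⟨_, rfl⟩

theorem FaP_atomic {n x : ℕ} {a : Fin n → M.U} (hx : x.unpair.1 = 1 ∨ x.unpair.1 = 2) :
    FaP M n x a ↔ wfAt M x (la M a) ∧ (x, la M a) ∉ AD M := by
  rw [wfAt_iff]
  constructor
  · rintro ⟨φ, h1, h2⟩
    refine ⟨⟨hx, φ, h1⟩, ?_⟩
    rw [mem_AD]
    rintro ⟨φ', _, h3, h4⟩
    have := gnFormula_inj φ φ' (h1.trans h3.symm)
    subst this
    exact h2 h4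
  · rintro ⟨⟨_, φ, h1⟩, h2⟩
    refine ⟨φ, h1, fun h3 => h2 ?_⟩
    rw [← TrP_atomic M hx]
    exact ⟨φ, h1, h3⟩

theorem TrP_falsum {n x : ℕ} {a : Fin n → M.U} (hx : x.unpair.1 = 0) : ¬ TrP M n x a := by
  rintro ⟨φ, h1, h2⟩
  subst h1
  cases φ <;> simp [gnFormula] at hx
  exact h2

theorem FaP_falsum {n x : ℕ} {a : Fin n → M.U} (hx : x.unpair.1 = 0) : FaP M n x a ↔ x = 0 := by
  constructor
  · rintro ⟨φ, h1, h2⟩
    subst h1
    cases φ <;> simp [gnFormula] at hx ⊢
    rfl
  · rintro rfl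
    exact ⟨.falsum, rfl, fun h => h⟩

theorem TrP_imp {n x : ℕ} {a : Fin n → M.U} (hx : x.unpair.1 = 3) :
    TrP M n x a ↔ (FaP M n x.unpair.2.unpair.1 a ∧ (TrP M n x.unpair.2.unpair.2 a ∨ FaP M n x.unpair.2.unpair.2 a)) ∨
      (TrP M n x.unpair.2.unpair.1 a ∧ TrP M n x.unpair.2.unpair.2 a) := by
  let _ := M.str
  constructor
  · rintro ⟨φ, h1, h2⟩
    subst h1
    cases φ <;> simp [gnFormula] at hx
    rename_i φ1 φ2
    simp only [gnFormula, Nat.unpair_pair]
    rw [FirstOrder.Language.BoundedFormula.realize_imp] at h2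
    by_cases h3 : φ1.Realize default a
    · exact Or.inr ⟨⟨φ1, rfl, h3⟩, ⟨φ2, rfl, h2 h3⟩⟩
    · left
      refine ⟨⟨φ1, rfl, h3⟩, ?_⟩
      by_cases h4 : φ2.Realize default a
      · exact Or.inl ⟨φ2, rfl, h4⟩
      · exact Or.inr ⟨φ2, rfl, h4⟩
  · have key : ∀ φ1 φ2 : S.lang.BoundedFormula Empty n, gnFormula S φ1 = x.unpair.2.unpair.1 →
      gnFormula S φ2 = x.unpair.2.unpair.2 → gnFormula S (φ1.imp φ2) = x := by
      intro φ1 φ2 h1 h2
      show Nat.pair 3 (Nat.pair (gnFormula S φ1) (gnFormula S φ2)) = x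
      rw [h1, h2, Nat.pair_unpair, ← hx, Nat.pair_unpair]
    rintro (⟨⟨φ1, h1, h2⟩, (⟨φ2, h3, h4⟩ | ⟨φ2, h3, h4⟩)⟩ | ⟨⟨φ1, h1, h2⟩, ⟨φ2, h3, h4⟩⟩)
    · exact ⟨φ1.imp φ2, key _ _ h1 h3, fun h => absurd h h2⟩
    · exact ⟨φ1.imp φ2, key _ _ h1 h3, fun h => absurd h h2⟩
    · exact ⟨φ1.imp φ2, key _ _ h1 h3, fun _ => h4⟩

theorem FaP_imp {n x : ℕ} {a : Fin n → M.U} (hx : x.unpair.1 = 3) :
    FaP M n x a ↔ (TrP M n x.unpair.2.unpair.1 a ∧ FaP M n x.unpair.2.unpair.2 a) := by
  let _ := M.str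
  constructor
  · rintro ⟨φ, h1, h2⟩
    subst h1
    cases φ <;> simp [gnFormula] at hx
    rename_i φ1 φ2
    simp only [gnFormula, Nat.unpair_pair]
    rw [FirstOrder.Language.BoundedFormula.realize_imp, Classical.not_imp] at h2
    exact ⟨⟨φ1, rfl, h2.1⟩, ⟨φ2, rfl, h2.2⟩⟩
  · rintro ⟨⟨φ1, h1, h2⟩, ⟨φ2, h3, h4⟩⟩
    refine ⟨φ1.imp φ2, ?_, fun h => h4 (h h2)⟩
    show Nat.pair 3 (Nat.pair (gnFormula S φ1) (gnFormula S φ2)) = x
    rw [h1, h3, Nat.pair_unpair, ← hx, Nat.pair_unpair]

theorem TrP_all {n x : ℕ} {a : Fin n → M.U} (hx : x.unpair.1 = 4) :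
    TrP M n x a ↔ ¬ ∃ u : M.U, ¬ TrP M (n+1) x.unpair.2 (Fin.snoc a u) := by
  let _ := M.str
  push Not
  constructor
  · rintro ⟨φ, h1, h2⟩
    subst h1
    cases φ <;> simp [gnFormula] at hx
    rename_i φ1
    simp only [gnFormula, Nat.unpair_pair]
    intro u
    rw [FirstOrder.Language.BoundedFormula.realize_all] at h2
    exact ⟨φ1, rfl, h2 u⟩
  · intro h
    obtain ⟨u0, hu0⟩ := M.nonempty
    obtain ⟨φ1, h1, _⟩ := h ⟨u0, hu0⟩
    refine ⟨φ1.all, ?_, ?_⟩
    · show Nat.pair 4 (gnFormula S φ1) = x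
      rw [h1, ← hx, Nat.pair_unpair]
    · rw [FirstOrder.Language.BoundedFormula.realize_all]
      intro u
      obtain ⟨φ2, h3, h4⟩ := h u
      have := gnFormula_inj φ2 φ1 (h3.trans h1.symm)
      rwa [this] at h4

theorem FaP_all {n x : ℕ} {a : Fin n → M.U} (hx : x.unpair.1 = 4) :
    FaP M n x a ↔ ∃ u : M.U, FaP M (n+1) x.unpair.2 (Fin.snoc a u) := by
  let _ := M.str
  constructor
  · rintro ⟨φ, h1, h2⟩
    subst h1
    cases φ <;> simp [gnFormula] at hx
    rename_i φ1
    simp only [gnFormula, Nat.unpair_pair]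
    rw [FirstOrder.Language.BoundedFormula.realize_all, not_forall] at h2
    obtain ⟨u, hu⟩ := h2
    exact ⟨u, φ1, rfl, hu⟩
  · rintro ⟨u, φ1, h1, h2⟩
    refine ⟨φ1.all, ?_, ?_⟩
    · show Nat.pair 4 (gnFormula S φ1) = x
      rw [h1, ← hx, Nat.pair_unpair]
    · rw [FirstOrder.Language.BoundedFormula.realize_all, not_forall]
      exact ⟨u, h2⟩

theorem TrP_other {n x : ℕ} {a : Fin n → M.U} (hx : 5 ≤ x.unpair.1) : ¬ TrP M n x a := by
  rintro ⟨φ, h1, h2⟩
  subst h1
  cases φ <;> simp [gnFormula] at hx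

theorem FaP_other {n x : ℕ} {a : Fin n → M.U} (hx : 5 ≤ x.unpair.1) : ¬ FaP M n x a := by
  rintro ⟨φ, h1, h2⟩
  subst h1
  cases φ <;> simp [gnFormula] at hx

end semantics


section machine

abbrev Inp := ℕ × ℕ × ℕ × ℕ × List ℕ

def sm (d z : ℕ) : ℕ := encode (Code.comp (ofNat Code d) (Code.pair Code.left (Code.const z)))

theorem eval_sm (d z s y : ℕ) :
    (ofNat Code (sm d z)).eval (Nat.pair s y) = (ofNat Code d).eval (Nat.pair s z) := by
  unfold sm
  rw [ofNat_encode]
  simp only [Code.eval, Code.eval_const]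
  simp only [Seq.seq, PFun.coe_val, Nat.unpair_pair, Part.map_eq_map, Part.map_some, Part.bind_some]
  exact Part.bind_some _ _

def Qf (inp : Inp) : ℕ := sm inp.1 (encode inp)

theorem Qf_prim : Primrec Qf := by
  unfold Qf sm
  refine Primrec.encode.comp (Code.primrec₂_comp.comp ((Primrec.ofNat Code).comp Primrec.fst) ?_)
  exact Code.primrec₂_pair.comp (Primrec.const Code.left) (Code.primrec_const.comp Primrec.encode)

def look (σ : List Bool) (d r kd x : ℕ) (a : List ℕ) : Option Bool :=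
  cond (decide (r = 0)) none (σ[Qf (d, r - 1, kd, x, a)]?)

theorem look_prim : Primrec fun q : List Bool × ℕ × ℕ × ℕ × ℕ × List ℕ =>
    look q.1 q.2.1 q.2.2.1 q.2.2.2.1 q.2.2.2.2.1 q.2.2.2.2.2 := by
  have d1 : Primrec fun q : List Bool × ℕ × ℕ × ℕ × ℕ × List ℕ => q.2.1 := Primrec.fst.comp Primrec.snd
  have d2 : Primrec fun q : List Bool × ℕ × ℕ × ℕ × ℕ × List ℕ => q.2.2 := Primrec.snd.comp Primrec.snd
  have d3 : Primrec fun q : List Bool × ℕ × ℕ × ℕ × ℕ × List ℕ => q.2.2.1 := Primrec.fst.comp d2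
  have d4 : Primrec fun q : List Bool × ℕ × ℕ × ℕ × ℕ × List ℕ => q.2.2.2 := Primrec.snd.comp d2
  unfold look
  refine Primrec.cond ((Primrec.eq (α := ℕ)).decide.comp d3 (Primrec.const 0)) (Primrec.const none) ?_
  exact Primrec.list_getElem?.comp Primrec.fst (Qf_prim.comp (d1.pair ((Primrec.nat_sub.comp d3 (Primrec.const 1)).pair d4)))

theorem look_succ {A : Set ℕ} {k d r kd x : ℕ} {a : List ℕ} {b : Bool} :
    look (seg A k) d (r+1) kd x a = some b ↔ Qf (d, r, kd, x, a) < k ∧ (b = true ↔ Qf (d, r, kd, x, a) ∈ A) := by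
  classical
  unfold look
  simp only [Nat.add_eq_zero_iff, one_ne_zero, and_false, decide_false, cond_false, Nat.add_sub_cancel]
  have := @mem_ansS A k (Qf (d, r, kd, x, a)) b
  rw [mem_ansR] at this
  rw [← this]
  unfold ansS
  rw [Part.mem_ofOption, Option.mem_def]

variable (ADb : ℕ × List ℕ → Bool) (Ub : ℕ → Bool) (wfb : ℕ × List ℕ → Bool)

/-- One step of the truth-evaluating machine: truth. -/
def stepA (σ : List Bool) (d r x : ℕ) (a : List ℕ) : Bool :=
  cond (decide (x.unpair.1 = 1) || decide (x.unpair.1 = 2)) (ADb (x, a))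
    (cond (decide (x.unpair.1 = 3))
      ((decide (look σ d r 1 x.unpair.2.unpair.1 a = some true) &&
        (decide (look σ d r 0 x.unpair.2.unpair.2 a = some true) ||
          decide (look σ d r 1 x.unpair.2.unpair.2 a = some true))) ||
        (decide (look σ d r 0 x.unpair.2.unpair.1 a = some true) &&
          decide (look σ d r 0 x.unpair.2.unpair.2 a = some true)))
      (cond (decide (x.unpair.1 = 4)) (decide (look σ d r 2 x.unpair.2 a = some false)) false))

/-- One step of the truth-evaluating machine: falsity. -/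
def stepB (σ : List Bool) (d r x : ℕ) (a : List ℕ) (u : ℕ) : Bool :=
  cond (decide (x.unpair.1 = 0)) (decide (x = 0))
    (cond (decide (x.unpair.1 = 1) || decide (x.unpair.1 = 2))
      (wfb (x, a) && !ADb (x, a))
      (cond (decide (x.unpair.1 = 3))
        (decide (look σ d r 0 x.unpair.2.unpair.1 a = some true) &&
          decide (look σ d r 1 x.unpair.2.unpair.2 a = some true))
        (cond (decide (x.unpair.1 = 4))
          (Ub u && decide (look σ d r 1 x.unpair.2 (a ++ [u]) = some true)) false)))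

/-- One step of the truth-evaluating machine: existence of a non-verifying element. -/
def stepC (σ : List Bool) (d r x : ℕ) (a : List ℕ) (u : ℕ) : Bool :=
  Ub u && decide (look σ d r 0 x (a ++ [u]) = some false)

/-- One step of the truth-evaluating machine. -/
def stepM (σ : List Bool) (p : Inp) (u : ℕ) : Bool :=
  cond (decide (p.2.2.1 = 0)) (stepA ADb σ p.1 p.2.1 p.2.2.2.1 p.2.2.2.2)
    (cond (decide (p.2.2.1 = 1)) (stepB ADb Ub wfb σ p.1 p.2.1 p.2.2.2.1 p.2.2.2.2 u)
      (stepC Ub σ p.1 p.2.1 p.2.2.2.1 p.2.2.2.2 u))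

section
variable {γ : Type} [Primcodable γ]

theorem c_look (kd : ℕ) (b : Bool) {s : γ → List Bool} {d r x : γ → ℕ} {a : γ → List ℕ}
    (hs : Primrec s) (hd : Primrec d) (hr : Primrec r) (hx : Primrec x) (ha : Primrec a) :
    Computable fun q => decide (look (s q) (d q) (r q) kd (x q) (a q) = some b) := by
  have h1 : Primrec fun q => (s q, d q, r q, kd, x q, a q) :=
    hs.pair (hd.pair (hr.pair ((Primrec.const kd).pair (hx.pair ha))))
  have h2 := look_prim.comp h1
  have h3 := (Primrec.eq (α := Option Bool)).decide.comp h2 (Primrec.const (some b))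
  exact h3.to_comp

theorem c_eq (c : ℕ) {X : γ → ℕ} (hX : Primrec X) : Computable fun q => decide (X q = c) :=
  ((Primrec.eq (α := ℕ)).decide.comp hX (Primrec.const c)).to_comp

theorem c_and {X Y : γ → Bool} (hX : Computable X) (hY : Computable Y) : Computable fun q => X q && Y q :=
  Primrec.and.to_comp.comp hX hY

theorem c_or {X Y : γ → Bool} (hX : Computable X) (hY : Computable Y) : Computable fun q => X q || Y q :=
  Primrec.or.to_comp.comp hX hY

theorem c_not {X : γ → Bool} (hX : Computable X) : Computable fun q => !X q :=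
  Primrec.not.to_comp.comp hX

theorem stepA_comp (hAD : Computable ADb) {s : γ → List Bool} {d r x : γ → ℕ} {a : γ → List ℕ}
    (hs : Primrec s) (hd : Primrec d) (hr : Primrec r) (hx : Primrec x) (ha : Primrec a) :
    Computable fun q => stepA ADb (s q) (d q) (r q) (x q) (a q) := by
  have htag : Primrec fun q => (x q).unpair.1 := Primrec.fst.comp (Primrec.unpair.comp hx)
  have hy : Primrec fun q => (x q).unpair.2 := Primrec.snd.comp (Primrec.unpair.comp hx)
  have hy1 : Primrec fun q => (x q).unpair.2.unpair.1 := Primrec.fst.comp (Primrec.unpair.comp hy)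
  have hy2 : Primrec fun q => (x q).unpair.2.unpair.2 := Primrec.snd.comp (Primrec.unpair.comp hy)
  have hADq : Computable fun q => ADb (x q, a q) := hAD.comp (hx.pair ha).to_comp
  have b1 := c_or (c_and (c_look 1 true hs hd hr hy1 ha) (c_or (c_look 0 true hs hd hr hy2 ha) (c_look 1 true hs hd hr hy2 ha)))
    (c_and (c_look 0 true hs hd hr hy1 ha) (c_look 0 true hs hd hr hy2 ha))
  have b2 := Computable.cond (c_eq 4 htag) (c_look 2 false hs hd hr hy ha) (Computable.const false)
  exact Computable.cond (c_or (c_eq 1 htag) (c_eq 2 htag)) hADq (Computable.cond (c_eq 3 htag) b1 b2)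

theorem stepB_comp (hAD : Computable ADb) (hU : Computable Ub) (hwf : Computable wfb)
    {s : γ → List Bool} {d r x u : γ → ℕ} {a : γ → List ℕ}
    (hs : Primrec s) (hd : Primrec d) (hr : Primrec r) (hx : Primrec x) (ha : Primrec a) (hu : Primrec u) :
    Computable fun q => stepB ADb Ub wfb (s q) (d q) (r q) (x q) (a q) (u q) := by
  have htag : Primrec fun q => (x q).unpair.1 := Primrec.fst.comp (Primrec.unpair.comp hx)
  have hy : Primrec fun q => (x q).unpair.2 := Primrec.snd.comp (Primrec.unpair.comp hx)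
  have hy1 : Primrec fun q => (x q).unpair.2.unpair.1 := Primrec.fst.comp (Primrec.unpair.comp hy)
  have hy2 : Primrec fun q => (x q).unpair.2.unpair.2 := Primrec.snd.comp (Primrec.unpair.comp hy)
  have hau : Primrec fun q => a q ++ [u q] := Primrec.list_concat.comp ha hu
  have hADq : Computable fun q => ADb (x q, a q) := hAD.comp (hx.pair ha).to_comp
  have hwfq : Computable fun q => wfb (x q, a q) := hwf.comp (hx.pair ha).to_comp
  have b1 := c_and hwfq (c_not hADq)
  have b2 := c_and (c_look 0 true hs hd hr hy1 ha) (c_look 1 true hs hd hr hy2 ha)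
  have b3 := c_and (hU.comp hu.to_comp) (c_look 1 true hs hd hr hy hau)
  have b4 := Computable.cond (c_eq 4 htag) b3 (Computable.const false)
  exact Computable.cond (c_eq 0 htag) (c_eq 0 hx) (Computable.cond (c_or (c_eq 1 htag) (c_eq 2 htag)) b1
    (Computable.cond (c_eq 3 htag) b2 b4))

theorem stepC_comp (hU : Computable Ub)
    {s : γ → List Bool} {d r x u : γ → ℕ} {a : γ → List ℕ}
    (hs : Primrec s) (hd : Primrec d) (hr : Primrec r) (hx : Primrec x) (ha : Primrec a) (hu : Primrec u) :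
    Computable fun q => stepC Ub (s q) (d q) (r q) (x q) (a q) (u q) := by
  have hau : Primrec fun q => a q ++ [u q] := Primrec.list_concat.comp ha hu
  exact c_and (hU.comp hu.to_comp) (c_look 0 false hs hd hr hx hau)

end

theorem stepM_comp (hAD : Computable ADb) (hU : Computable Ub) (hwf : Computable wfb) :
    Computable fun q : (List Bool × Inp) × ℕ => stepM ADb Ub wfb q.1.1 q.1.2 q.2 := by
  have hσ : Primrec fun q : (List Bool × Inp) × ℕ => q.1.1 := Primrec.fst.comp Primrec.fst
  have hp : Primrec fun q : (List Bool × Inp) × ℕ => q.1.2 := Primrec.snd.comp Primrec.fst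
  have hd : Primrec fun q : (List Bool × Inp) × ℕ => q.1.2.1 := Primrec.fst.comp hp
  have hp2 : Primrec fun q : (List Bool × Inp) × ℕ => q.1.2.2 := Primrec.snd.comp hp
  have hr : Primrec fun q : (List Bool × Inp) × ℕ => q.1.2.2.1 := Primrec.fst.comp hp2
  have hp3 : Primrec fun q : (List Bool × Inp) × ℕ => q.1.2.2.2 := Primrec.snd.comp hp2
  have hk : Primrec fun q : (List Bool × Inp) × ℕ => q.1.2.2.2.1 := Primrec.fst.comp hp3
  have hp4 : Primrec fun q : (List Bool × Inp) × ℕ => q.1.2.2.2.2 := Primrec.snd.comp hp3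
  have hx : Primrec fun q : (List Bool × Inp) × ℕ => q.1.2.2.2.2.1 := Primrec.fst.comp hp4
  have ha : Primrec fun q : (List Bool × Inp) × ℕ => q.1.2.2.2.2.2 := Primrec.snd.comp hp4
  have hu : Primrec fun q : (List Bool × Inp) × ℕ => q.2 := Primrec.snd
  exact Computable.cond (c_eq 0 hk) (stepA_comp ADb hAD hσ hd hr hx ha)
    (Computable.cond (c_eq 1 hk) (stepB_comp ADb Ub wfb hAD hU hwf hσ hd hr hx ha hu)
      (stepC_comp Ub hU hσ hd hr hx ha hu))

def Acc (A : Set ℕ) (p : Inp) : Prop := ∃ k u, stepM ADb Ub wfb (seg A k) p u = true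

theorem exists_machine (hAD : Computable ADb) (hU : Computable Ub) (hwf : Computable wfb) :
    ∃ d : ℕ, ∀ (A : Set ℕ) (p : Inp), p.1 = d → (Qf p ∈ jump A ↔ Acc ADb Ub wfb A p) := by
  let F : List Bool × Inp → Part ℕ := fun q => Nat.rfind fun u => Part.some (stepM ADb Ub wfb q.1 q.2 u)
  have hF : Partrec (F : List Bool × Inp →. ℕ) := by
    refine Partrec.rfind (p := fun (q : List Bool × Inp) u => Part.some (stepM ADb Ub wfb q.1 q.2 u)) ?_
    exact stepM_comp ADb Ub wfb hAD hU hwf
  obtain ⟨c, hc⟩ := Code.exists_code.1 hF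
  refine ⟨encode c, ?_⟩
  rintro A p hp
  unfold Acc Qf
  rw [jump_def]
  have h1 : ∀ k, ((ofNat Code (sm p.1 (encode p))).eval (Nat.pair (encode (seg A k)) (sm p.1 (encode p)))).Dom ↔
      ∃ u, stepM ADb Ub wfb (seg A k) p u = true := by
    intro k
    rw [eval_sm, hp, ofNat_encode, hc]
    have h2 : (Nat.pair (encode (seg A k)) (encode p)) = encode (seg A k, p) := rfl
    rw [h2]
    simp only [encodek, Part.coe_some, Part.bind_some]
    show (F (seg A k, p)).Dom ↔ _
    constructor
    · intro h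
      obtain ⟨u, hu⟩ := Part.dom_iff_mem.1 h
      have := Nat.rfind_spec hu
      exact ⟨u, (Part.mem_some_iff.1 this).symm⟩
    · rintro ⟨u, hu⟩
      obtain ⟨m, hm, _⟩ := Nat.rfind_min' (p := fun u => stepM ADb Ub wfb (seg A k) p u) hu
      exact Part.dom_iff_mem.2 ⟨m, hm⟩
  constructor
  · rintro ⟨k, hk⟩
    exact ⟨k, (h1 k).1 hk⟩
  · rintro ⟨k, hk⟩
    exact ⟨k, (h1 k).2 hk⟩

end machine


section truth

theorem c_all {γ : Type} [Primcodable γ] {P : γ → ℕ → Bool} (hP : Computable₂ P) {L : γ → List ℕ}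
    (hL : Computable L) : Computable fun q => (L q).all (P q) := by
  have h1 : Computable₂ fun (q : γ) (r : ℕ × Bool) => (r.2 && (((L q)[r.1]?).map (P q)).getD true) := by
    refine Primrec.and.to_comp.comp (Computable.snd.comp Computable.snd) ?_
    refine Computable.option_getD ?_ (Computable.const true)
    refine Computable.option_map ?_ ?_
    · exact Computable.list_getElem?.comp (hL.comp Computable.fst) (Computable.fst.comp Computable.snd)
    · exact hP.comp (Computable.fst.comp Computable.fst) Computable.snd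
  have h2 := Computable.nat_rec (Computable.list_length.comp hL) (Computable.const true) h1
  refine h2.of_eq fun q => ?_
  have key : ∀ i, i ≤ (L q).length → (Nat.rec (motive := fun _ => Bool) true
      (fun y IH => (IH && (((L q)[y]?).map (P q)).getD true)) i) = ((L q).take i).all (P q) := by
    intro i
    induction i with
    | zero => intro _; simp
    | succ i ih =>
      intro hi
      simp only [ih (by omega)]
      have e : (L q).take (i+1) = (L q).take i ++ [(L q)[i]'(by omega)] := by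
        rw [List.take_add_one, List.getElem?_eq_getElem (by omega)]; rfl
      rw [e, List.all_append, List.getElem?_eq_getElem (by omega)]
      simp only [Option.map_some, Option.getD_some, List.all_cons, List.all_nil, Bool.and_true]
  have := key (L q).length le_rfl
  rw [List.take_length] at this
  exact this

variable {S : Sig} (M : CompStr S)

open scoped Classical in
theorem AD_comp : Computable fun p => decide (p ∈ AD M) :=
  M.diag_comp.decide

open scoped Classical in
theorem U_comp' : Computable fun u => decide (u ∈ M.U) :=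
  M.U_comp.decide

open scoped Classical in
theorem wfAt_comp : Computable fun p : ℕ × List ℕ => decide (wfAt M p.1 p.2) := by
  have htag : Primrec fun q : ℕ × List ℕ => q.1.unpair.1 := Primrec.fst.comp (Primrec.unpair.comp Primrec.fst)
  have hy : Primrec fun q : ℕ × List ℕ => q.1.unpair.2 := Primrec.snd.comp (Primrec.unpair.comp Primrec.fst)
  have hy1 : Primrec fun q : ℕ × List ℕ => q.1.unpair.2.unpair.1 := Primrec.fst.comp (Primrec.unpair.comp hy)
  have hy2 : Primrec fun q : ℕ × List ℕ => q.1.unpair.2.unpair.2 := Primrec.snd.comp (Primrec.unpair.comp hy)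
  have hL : Primrec fun q : ℕ × List ℕ => ofNat (List ℕ) q.1.unpair.2.unpair.2 := (Primrec.ofNat (List ℕ)).comp hy2
  have e1 : Computable fun q : ℕ × List ℕ =>
      decide ((Nat.pair 1 (Nat.pair q.1.unpair.2.unpair.1 q.1.unpair.2.unpair.1), q.2) ∈ AD M) :=
    (AD_comp M).comp ((Primrec₂.natPair.comp (Primrec.const 1) (Primrec₂.natPair.comp hy1 hy1)).pair Primrec.snd).to_comp
  have e2 : Computable fun q : ℕ × List ℕ =>
      decide ((Nat.pair 1 (Nat.pair q.1.unpair.2.unpair.2 q.1.unpair.2.unpair.2), q.2) ∈ AD M) :=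
    (AD_comp M).comp ((Primrec₂.natPair.comp (Primrec.const 1) (Primrec₂.natPair.comp hy2 hy2)).pair Primrec.snd).to_comp
  have e3 : Computable fun q : ℕ × List ℕ => decide (q.1.unpair.2.unpair.1 ∈ S.R) :=
    S.R_comp.decide.comp hy1.to_comp
  have e4 : Computable fun q : ℕ × List ℕ =>
      decide ((ofNat (List ℕ) q.1.unpair.2.unpair.2).length = S.rarity q.1.unpair.2.unpair.1) :=
    (Primrec.eq (α := ℕ)).decide.to_comp.comp (Primrec.list_length.comp hL).to_comp (S.rarity_comp.comp hy1.to_comp)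
  have e5 : Computable fun q : ℕ × List ℕ => (ofNat (List ℕ) q.1.unpair.2.unpair.2).all
      fun t => decide ((Nat.pair 1 (Nat.pair t t), q.2) ∈ AD M) := by
    refine c_all (P := fun (q : ℕ × List ℕ) t => decide ((Nat.pair 1 (Nat.pair t t), q.2) ∈ AD M)) ?_ hL.to_comp
    exact (AD_comp M).comp ((Primrec₂.natPair.comp (Primrec.const 1) (Primrec₂.natPair.comp Primrec.snd Primrec.snd)).pair
      (Primrec.snd.comp Primrec.fst)).to_comp
  have e6 := c_or (c_and (c_eq 1 htag) (c_and e1 e2)) (c_and (c_eq 2 htag) (c_and e3 (c_and e4 e5)))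
  refine e6.of_eq fun q => ?_
  rw [Bool.eq_iff_iff]
  unfold wfAt
  simp only [Bool.or_eq_true, Bool.and_eq_true, decide_eq_true_eq, List.all_eq_true]

theorem right_lt_pair {a b : ℕ} (ha : 1 ≤ a) : b < Nat.pair a b := by
  unfold Nat.pair
  split_ifs with h
  · nlinarith
  · nlinarith

theorem unpair2_lt {x : ℕ} (hx : 1 ≤ x.unpair.1) : x.unpair.2 < x := by
  have := right_lt_pair (b := x.unpair.2) hx
  rwa [Nat.pair_unpair] at this

theorem unpair21_lt {x : ℕ} (hx : 1 ≤ x.unpair.1) : x.unpair.2.unpair.1 < x :=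
  lt_of_le_of_lt (Nat.unpair_left_le _) (unpair2_lt hx)

theorem unpair22_lt {x : ℕ} (hx : 1 ≤ x.unpair.1) : x.unpair.2.unpair.2 < x :=
  lt_of_le_of_lt (Nat.unpair_right_le _) (unpair2_lt hx)

open scoped Classical in
noncomputable def AAcc (A : Set ℕ) (p : Inp) : Prop :=
  Acc (fun p => decide (p ∈ AD M)) (fun u => decide (u ∈ M.U)) (fun p => decide (wfAt M p.1 p.2)) A p

theorem exists_d : ∃ d : ℕ, ∀ (A : Set ℕ) (p : Inp), p.1 = d → (Qf p ∈ jump A ↔ AAcc M A p) := by
  classical
  exact exists_machine _ _ _ (AD_comp M) (U_comp' M) (wfAt_comp M)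

theorem truth_aux (d : ℕ) (hd : ∀ (A : Set ℕ) (p : Inp), p.1 = d → (Qf p ∈ jump A ↔ AAcc M A p)) (r : ℕ) :
    (∀ (n x : ℕ) (a : Fin n → M.U), 2 * x ≤ r → (Qf (d, r, 0, x, la M a) ∈ iterJump (r+1) ↔ TrP M n x a)) ∧
    (∀ (n x : ℕ) (a : Fin n → M.U), 2 * x ≤ r → (Qf (d, r, 1, x, la M a) ∈ iterJump (r+1) ↔ FaP M n x a)) ∧
    (∀ (n x : ℕ) (a : Fin n → M.U), 2 * x + 1 ≤ r → (Qf (d, r, 2, x, la M a) ∈ iterJump (r+1) ↔
      ∃ u : M.U, ¬ TrP M (n+1) x (Fin.snoc a u))) := by
  classical
  -- unfold the three kinds of acceptance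
  have acc0 : ∀ (A : Set ℕ) (r x : ℕ) (a : List ℕ), Qf (d, r, 0, x, a) ∈ jump A ↔
      ∃ k, stepA (fun p => decide (p ∈ AD M)) (seg A k) d r x a = true := by
    intro A r x a
    rw [hd A _ rfl]
    unfold AAcc Acc stepM
    simp
  have acc1 : ∀ (A : Set ℕ) (r x : ℕ) (a : List ℕ), Qf (d, r, 1, x, a) ∈ jump A ↔
      ∃ k u, stepB (fun p => decide (p ∈ AD M)) (fun u => decide (u ∈ M.U)) (fun p => decide (wfAt M p.1 p.2))
        (seg A k) d r x a u = true := by
    intro A r x a
    rw [hd A _ rfl]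
    unfold AAcc Acc stepM
    simp
  have acc2 : ∀ (A : Set ℕ) (r x : ℕ) (a : List ℕ), Qf (d, r, 2, x, a) ∈ jump A ↔
      ∃ k u, stepC (fun u => decide (u ∈ M.U)) (seg A k) d r x a u = true := by
    intro A r x a
    rw [hd A _ rfl]
    unfold AAcc Acc stepM
    simp
  induction r with
  | zero =>
    refine ⟨?_, ?_, ?_⟩
    · intro n x a hx
      have hx0 : x = 0 := by omega
      subst hx0
      show Qf _ ∈ jump _ ↔ _
      rw [acc0]
      have := TrP_falsum M (n := n) (a := a) (x := 0) (by simp)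
      simp [stepA, this]
    · intro n x a hx
      have hx0 : x = 0 := by omega
      subst hx0
      show Qf _ ∈ jump _ ↔ _
      rw [acc1]
      have := FaP_falsum M (n := n) (a := a) (x := 0) (by simp)
      simp [stepB, this]
    · intro n x a hx
      omega
  | succ r ih =>
    obtain ⟨ih0, ih1, ih2⟩ := ih
    have hlook : ∀ (k kd x : ℕ) (a : List ℕ) (b : Bool), look (seg (iterJump (r+1)) k) d (r+1) kd x a = some b ↔
        Qf (d, r, kd, x, a) < k ∧ (b = true ↔ Qf (d, r, kd, x, a) ∈ iterJump (r+1)) := fun k kd x a b => look_succ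
    refine ⟨?_, ?_, ?_⟩
    · intro n x a hx
      show Qf _ ∈ jump (iterJump (r+1)) ↔ _
      rw [acc0]
      have htag : x.unpair.1 = 0 ∨ x.unpair.1 = 1 ∨ x.unpair.1 = 2 ∨ x.unpair.1 = 3 ∨ x.unpair.1 = 4 ∨ 5 ≤ x.unpair.1 := by omega
      rcases htag with h | h | h | h | h | h
      · have := TrP_falsum M (n := n) (a := a) h
        simp [stepA, h, this]
      · rw [TrP_atomic M (Or.inl h)]
        simp [stepA, h]
      · rw [TrP_atomic M (Or.inr h)]
        simp [stepA, h]
      · have b1 := unpair21_lt (x := x) (by omega)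
        have b2 := unpair22_lt (x := x) (by omega)
        rw [TrP_imp M h, ← ih0 n _ a (by omega), ← ih0 n _ a (by omega), ← ih1 n _ a (by omega), ← ih1 n _ a (by omega)]
        simp only [stepA, h, hlook]
        simp only [show decide ((3:ℕ) = 1) = false from rfl, show decide ((3:ℕ) = 2) = false from rfl, show decide ((4:ℕ) = 1) = false from rfl,
          show decide ((4:ℕ) = 2) = false from rfl, show decide ((4:ℕ) = 3) = false from rfl, show decide ((3:ℕ) = 0) = false from rfl,
          show decide ((4:ℕ) = 0) = false from rfl, Bool.or_self, cond_false,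
          decide_true, cond_true, Bool.or_eq_true, Bool.and_eq_true, decide_eq_true_eq, true_iff]
        constructor
        · rintro ⟨k, (⟨h1, (h2 | h2)⟩ | ⟨h1, h2⟩)⟩
          · exact Or.inl ⟨h1.2, Or.inl h2.2⟩
          · exact Or.inl ⟨h1.2, Or.inr h2.2⟩
          · exact Or.inr ⟨h1.2, h2.2⟩
        · intro hh
          refine ⟨Qf (d, r, 0, x.unpair.2.unpair.1, la M a) + Qf (d, r, 1, x.unpair.2.unpair.1, la M a) +
            Qf (d, r, 0, x.unpair.2.unpair.2, la M a) + Qf (d, r, 1, x.unpair.2.unpair.2, la M a) + 1, ?_⟩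
          rcases hh with ⟨h1, (h2 | h2)⟩ | ⟨h1, h2⟩
          · exact Or.inl ⟨⟨by omega, h1⟩, Or.inl ⟨by omega, h2⟩⟩
          · exact Or.inl ⟨⟨by omega, h1⟩, Or.inr ⟨by omega, h2⟩⟩
          · exact Or.inr ⟨⟨by omega, h1⟩, ⟨by omega, h2⟩⟩
      · have b1 := unpair2_lt (x := x) (by omega)
        rw [TrP_all M h, ← ih2 n _ a (by omega)]
        simp only [stepA, h, hlook]
        simp only [show decide ((3:ℕ) = 1) = false from rfl, show decide ((3:ℕ) = 2) = false from rfl, show decide ((4:ℕ) = 1) = false from rfl,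
          show decide ((4:ℕ) = 2) = false from rfl, show decide ((4:ℕ) = 3) = false from rfl, show decide ((3:ℕ) = 0) = false from rfl,
          show decide ((4:ℕ) = 0) = false from rfl, Bool.or_self, cond_false,
          decide_true, cond_true, decide_eq_true_eq, Bool.false_eq_true, false_iff]
        constructor
        · rintro ⟨k, hk⟩; exact hk.2
        · intro hh; exact ⟨_, Nat.lt_succ_self _, hh⟩
      · have := TrP_other M (n := n) (a := a) h
        have h1 : ¬ x.unpair.1 = 1 := by omega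
        have h2 : ¬ x.unpair.1 = 2 := by omega
        have h3 : ¬ x.unpair.1 = 3 := by omega
        have h4 : ¬ x.unpair.1 = 4 := by omega
        simp [stepA, h1, h2, h3, h4, this]
    · intro n x a hx
      show Qf _ ∈ jump (iterJump (r+1)) ↔ _
      rw [acc1]
      have htag : x.unpair.1 = 0 ∨ x.unpair.1 = 1 ∨ x.unpair.1 = 2 ∨ x.unpair.1 = 3 ∨ x.unpair.1 = 4 ∨ 5 ≤ x.unpair.1 := by omega
      rcases htag with h | h | h | h | h | h
      · rw [FaP_falsum M h]
        simp [stepB, h]
      · rw [FaP_atomic M (Or.inl h)]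
        simp [stepB, h]
      · rw [FaP_atomic M (Or.inr h)]
        simp [stepB, h]
      · have b1 := unpair21_lt (x := x) (by omega)
        have b2 := unpair22_lt (x := x) (by omega)
        rw [FaP_imp M h, ← ih0 n _ a (by omega), ← ih1 n _ a (by omega)]
        simp only [stepB, h, hlook]
        simp only [show decide ((3:ℕ) = 1) = false from rfl, show decide ((3:ℕ) = 2) = false from rfl, show decide ((4:ℕ) = 1) = false from rfl,
          show decide ((4:ℕ) = 2) = false from rfl, show decide ((4:ℕ) = 3) = false from rfl, show decide ((3:ℕ) = 0) = false from rfl,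
          show decide ((4:ℕ) = 0) = false from rfl, Bool.or_self, cond_false,
          decide_true, cond_true, Bool.and_eq_true, decide_eq_true_eq, true_iff]
        constructor
        · rintro ⟨k, u, h1, h2⟩
          exact ⟨h1.2, h2.2⟩
        · rintro ⟨h1, h2⟩
          exact ⟨Qf (d, r, 0, x.unpair.2.unpair.1, la M a) + Qf (d, r, 1, x.unpair.2.unpair.2, la M a) + 1, 0,
            ⟨by omega, h1⟩, ⟨by omega, h2⟩⟩
      · have b1 := unpair2_lt (x := x) (by omega)
        rw [FaP_all M h]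
        simp only [stepB, h, hlook]
        simp only [show decide ((3:ℕ) = 1) = false from rfl, show decide ((3:ℕ) = 2) = false from rfl, show decide ((4:ℕ) = 1) = false from rfl,
          show decide ((4:ℕ) = 2) = false from rfl, show decide ((4:ℕ) = 3) = false from rfl, show decide ((3:ℕ) = 0) = false from rfl,
          show decide ((4:ℕ) = 0) = false from rfl, Bool.or_self, cond_false,
          decide_true, cond_true, decide_eq_true_eq, Bool.and_eq_true, true_iff]
        constructor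
        · rintro ⟨k, u, hu, hk⟩
          refine ⟨⟨u, hu⟩, ?_⟩
          rw [← ih1 (n+1) _ _ (by omega), la_snoc]
          exact hk.2
        · rintro ⟨u, hu⟩
          rw [← ih1 (n+1) _ _ (by omega), la_snoc] at hu
          exact ⟨_, u, u.2, Nat.lt_succ_self _, hu⟩
      · have := FaP_other M (n := n) (a := a) h
        have h0 : ¬ x.unpair.1 = 0 := by omega
        have h1 : ¬ x.unpair.1 = 1 := by omega
        have h2 : ¬ x.unpair.1 = 2 := by omega
        have h3 : ¬ x.unpair.1 = 3 := by omega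
        have h4 : ¬ x.unpair.1 = 4 := by omega
        simp [stepB, h0, h1, h2, h3, h4, this]
    · intro n x a hx
      show Qf _ ∈ jump (iterJump (r+1)) ↔ _
      rw [acc2]
      simp only [stepC, hlook, Bool.and_eq_true, decide_eq_true_eq, Bool.false_eq_true, false_iff]
      constructor
      · rintro ⟨k, u, hu, hk⟩
        refine ⟨⟨u, hu⟩, ?_⟩
        rw [← ih0 (n+1) _ _ (by omega), la_snoc]
        exact hk.2
      · rintro ⟨u, hu⟩
        rw [← ih0 (n+1) _ _ (by omega), la_snoc] at hu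
        exact ⟨_, u, u.2, Nat.lt_succ_self _, hu⟩

/-- The complete theory of a computable structure is many-one reducible to `zeroOmega`. -/
theorem theory_mred (T : Set ℕ) (hT : ∀ x, x ∈ T ↔ TrP M 0 x (fun i => i.elim0)) : MRed T zeroOmega := by
  obtain ⟨d, hd⟩ := exists_d M
  refine ⟨fun x => Nat.pair (2 * x + 1) (Qf (d, 2 * x, 0, x, [])), ?_, ?_⟩
  · refine (Primrec₂.natPair.comp ?_ (Qf_prim.comp ?_)).to_comp
    · exact Primrec.succ.comp (Primrec.nat_mul.comp (Primrec.const 2) Primrec.id)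
    · exact (Primrec.const d).pair ((Primrec.nat_mul.comp (Primrec.const 2) Primrec.id).pair
        ((Primrec.const 0).pair (Primrec.id.pair (Primrec.const []))))
  · intro x
    rw [hT]
    have h1 := (truth_aux M d hd (2 * x)).1 0 x (fun i => i.elim0) le_rfl
    have h2 : la M (fun i : Fin 0 => i.elim0) = [] := by simp [la]
    rw [h2] at h1
    rw [← h1]
    unfold zeroOmega
    show _ ↔ (Nat.pair (2 * x + 1) (Qf (d, 2 * x, 0, x, []))).unpair.2 ∈
      iterJump (Nat.pair (2 * x + 1) (Qf (d, 2 * x, 0, x, []))).unpair.1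
    rw [Nat.unpair_pair]

end truth


theorem trP_zero_iff {S : Sig} (M : CompStr S) {T : S.lang.Theory} (hT : T.IsMaximal)
    (hM : @FirstOrder.Language.Theory.Model S.lang M.U M.str T) (x : ℕ) :
    x ∈ theoryCodes S T ↔ TrP M 0 x (fun i => i.elim0) := by
  let _ := M.str
  have key : ∀ φ : S.lang.Sentence, φ ∈ T ↔ @FirstOrder.Language.BoundedFormula.Realize S.lang M.U M.str _ _ φ default (fun i : Fin 0 => i.elim0) := by
    intro φ
    have e : (fun i : Fin 0 => i.elim0 : Fin 0 → M.U) = default := Subsingleton.elim _ _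
    rw [e]
    constructor
    · intro h
      exact hM.realize_of_mem φ h
    · intro h
      rcases hT.mem_or_not_mem φ with h1 | h1
      · exact h1
      · have h2 := hM.realize_of_mem _ h1
        exact absurd h h2
  unfold theoryCodes TrP
  constructor
  · rintro ⟨φ, h1, h2⟩
    exact ⟨φ, h2, (key φ).1 h1⟩
  · rintro ⟨φ, h1, h2⟩
    exact ⟨φ, (key φ).2 h2, h1⟩

theorem main : ∃ D : Set ℕ, degOf D ≤ degOf zeroOmega ∧
    ∀ (S : Sig) (T : S.lang.Theory), T.IsMaximal → HasComputableModel S T →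
      degOf (theoryCodes S T) ≠ degOf D := by
  refine ⟨DD, DD_le, ?_⟩
  rintro S T hT ⟨M, hM⟩
  exact main_abstract (theory_mred M _ (trP_zero_iff M hT hM))

end Pool.Agent.Helper84.F36693
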